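import Mathlib
import Pool.Agent.H807R2.Dav1

/-! The minor arc estimate for the Moebius function through `μ log = -Λ * μ`. -/

set_option autoImplicit false

open Finset

open scoped ArithmeticFunction.vonMangoldt

namespace Pool.Agent.H807R2.Dav

/-- real valued Moebius function -/
noncomputable def mu (n : ℕ) : ℝ := ((ArithmeticFunction.moebius n : ℤ) : ℝ)

lemma abs_mu_le (n : ℕ) : |mu n| ≤ 1 := by
  unfold mu
  have h : |ArithmeticFunction.moebius n| ≤ 1 := ArithmeticFunction.abs_moebius_le_one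
  exact_mod_cast h

lemma mu_zero : mu 0 = 0 := by simp [mu]

lemma mu_log (n : ℕ) : mu n * Real.log n = - ∑ x ∈ n.divisorsAntidiagonal, Λ x.1 * mu x.2 := by
  set m : ArithmeticFunction ℝ := (ArithmeticFunction.moebius : ArithmeticFunction ℝ) with hm
  set l : ArithmeticFunction ℝ := ArithmeticFunction.log with hl
  have h1 : (ArithmeticFunction.pmul m l) * (ArithmeticFunction.zeta : ArithmeticFunction ℝ) =
      -Λ := by
    ext n
    rw [ArithmeticFunction.coe_mul_zeta_apply]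
    have := @ArithmeticFunction.sum_moebius_mul_log_eq n
    simp only [hm, hl, ArithmeticFunction.pmul_apply, ArithmeticFunction.intCoe_apply]
    rw [this]
    simp
  have h2 : ArithmeticFunction.pmul m l = -(Λ * m) := by
    calc ArithmeticFunction.pmul m l
        = ArithmeticFunction.pmul m l *
          ((ArithmeticFunction.zeta : ArithmeticFunction ℝ) * m) := by
          rw [hm, ArithmeticFunction.coe_zeta_mul_coe_moebius, mul_one]
      _ = (ArithmeticFunction.pmul m l * (ArithmeticFunction.zeta : ArithmeticFunction ℝ)) * m := by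
          rw [mul_assoc]
      _ = _ := by rw [h1, neg_mul]
  have h3 := congrArg (fun f : ArithmeticFunction ℝ => f n) h2
  simp only [hm, hl, ArithmeticFunction.pmul_apply, ArithmeticFunction.intCoe_apply,
    ArithmeticFunction.log_apply, ArithmeticFunction.neg_apply,
    ArithmeticFunction.mul_apply] at h3
  unfold mu
  exact h3

/-- the set of pairs -/
def QQ (N : ℕ) : Finset (ℕ × ℕ) :=
  (range N ×ˢ range N).filter (fun x => 1 ≤ x.1 ∧ 1 ≤ x.2 ∧ x.1 * x.2 < N)

lemma mem_QQ {N : ℕ} {x : ℕ × ℕ} : x ∈ QQ N ↔ 1 ≤ x.1 ∧ 1 ≤ x.2 ∧ x.1 * x.2 < N := by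
  unfold QQ
  simp only [mem_filter, mem_product, mem_range]
  constructor
  · exact fun h => h.2
  · intro h
    refine ⟨⟨?_, ?_⟩, h⟩
    · nlinarith [h.1, h.2.1, h.2.2]
    · nlinarith [h.1, h.2.1, h.2.2]

lemma sum_QQ (N : ℕ) (F : ℕ × ℕ → ℂ) :
    ∑ n ∈ range N, ∑ x ∈ n.divisorsAntidiagonal, F x = ∑ x ∈ QQ N, F x := by
  rw [← sum_fiberwise_of_maps_to (s := QQ N) (t := range N) (g := fun x => x.1 * x.2)
    (fun x hx => mem_range.2 (mem_QQ.1 hx).2.2)]
  refine sum_congr rfl fun n hn => ?_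
  have : (QQ N).filter (fun x => x.1 * x.2 = n) = n.divisorsAntidiagonal := by
    ext x
    simp only [mem_filter, mem_QQ, Nat.mem_divisorsAntidiagonal]
    have hn' := mem_range.1 hn
    constructor
    · rintro ⟨⟨h1, h2, h3⟩, h4⟩
      refine ⟨h4, ?_⟩
      rw [← h4]
      positivity
    · rintro ⟨h4, h5⟩
      have h6 : x.1 ≠ 0 := by rintro h; rw [h, zero_mul] at h4; exact h5 h4.symm
      have h7 : x.2 ≠ 0 := by rintro h; rw [h, mul_zero] at h4; exact h5 h4.symm
      exact ⟨⟨by omega, by omega, by omega⟩, h4⟩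
  rw [this]

/-- the summand -/
noncomputable def FF (α : ℝ) (x : ℕ × ℕ) : ℂ :=
  ((Λ x.1 * mu x.2 : ℝ) : ℂ) * ee ((x.1 * x.2 : ℕ) * α)

lemma T_eq (N : ℕ) (α : ℝ) :
    ∑ n ∈ range N, ((mu n * Real.log n : ℝ) : ℂ) * ee (n * α) = - ∑ x ∈ QQ N, FF α x := by
  rw [← sum_QQ, ← sum_neg_distrib]
  refine sum_congr rfl fun n _ => ?_
  rw [mu_log]
  push_cast
  rw [neg_mul, sum_mul]
  congr 1
  refine sum_congr rfl fun x hx => ?_
  have h1 := (Nat.mem_divisorsAntidiagonal.1 hx).1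
  unfold FF
  rw [h1]
  push_cast
  ring

lemma norm_FF_le (α : ℝ) (x : ℕ × ℕ) : ‖FF α x‖ ≤ Λ x.1 := by
  unfold FF
  rw [norm_mul, norm_ee, mul_one, Complex.norm_real, Real.norm_eq_abs, abs_mul,
    abs_of_nonneg ArithmeticFunction.vonMangoldt_nonneg]
  exact mul_le_of_le_one_right ArithmeticFunction.vonMangoldt_nonneg (abs_mu_le _)

lemma sum_inv_Ico (D : ℕ) : ∑ d ∈ Ico 1 D, (1 / (d : ℝ)) ≤ 1 + Real.log D := by
  refine le_trans ?_ (sum_inv_range D)
  apply sum_le_sum_of_subset_of_nonneg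
  · intro x hx
    simp only [mem_Ico, mem_range] at hx ⊢
    exact hx.2
  · intro x _ _
    positivity

/-- region 1: `d < D` -/
lemma region1 (N D : ℕ) (hD : 1 ≤ D) :
    ∑ x ∈ (QQ N).filter (fun x => x.1 < D), Λ x.1 ≤ N * (Real.log D * (1 + Real.log D)) := by
  have h1 : (QQ N).filter (fun x => x.1 < D) ⊆
      ((Ico 1 D).sigma (fun d => Icc 1 (N / d))).image (fun x => ((x.1, x.2) : ℕ × ℕ)) := by
    intro x hx
    simp only [mem_filter, mem_QQ] at hx
    obtain ⟨⟨h1, h2, h3⟩, h4⟩ := hx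
    simp only [mem_image, mem_sigma, mem_Ico, mem_Icc]
    refine ⟨⟨x.1, x.2⟩, ⟨⟨h1, h4⟩, h2, ?_⟩, rfl⟩
    refine (Nat.le_div_iff_mul_le (Nat.lt_of_lt_of_le Nat.zero_lt_one h1)).2 ?_
    rw [mul_comm]; exact h3.le
  calc ∑ x ∈ (QQ N).filter (fun x => x.1 < D), Λ x.1
      ≤ ∑ x ∈ ((Ico 1 D).sigma (fun d => Icc 1 (N / d))).image
          (fun x => ((x.1, x.2) : ℕ × ℕ)), Λ x.1 :=
        sum_le_sum_of_subset_of_nonneg h1 (fun _ _ _ => ArithmeticFunction.vonMangoldt_nonneg)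
    _ = ∑ x ∈ (Ico 1 D).sigma (fun d => Icc 1 (N / d)), Λ x.1 := by
        rw [sum_image]
        rintro ⟨a, b⟩ _ ⟨c, d⟩ _ h
        simp only [Prod.mk.injEq] at h
        obtain ⟨rfl, rfl⟩ := h
        rfl
    _ = ∑ d ∈ Ico 1 D, ∑ m ∈ Icc 1 (N / d), Λ d := by rw [sum_sigma]
    _ ≤ ∑ d ∈ Ico 1 D, (N * Real.log D) * (1 / (d : ℝ)) := by
        refine sum_le_sum fun d hd => ?_
        rw [sum_const, Nat.card_Icc, nsmul_eq_mul]
        simp only [Nat.add_sub_cancel]
        have hd' := mem_Ico.1 hd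
        have h2 : Λ d ≤ Real.log D := ArithmeticFunction.vonMangoldt_le_log.trans
          (Real.log_le_log (by exact_mod_cast hd'.1) (by exact_mod_cast hd'.2.le))
        have h3 : ((N / d : ℕ) : ℝ) ≤ N / d := Nat.cast_div_le
        calc ((N / d : ℕ) : ℝ) * Λ d ≤ (N / d) * Real.log D :=
              mul_le_mul h3 h2 ArithmeticFunction.vonMangoldt_nonneg (by positivity)
          _ = _ := by ring
    _ ≤ _ := by
        rw [← mul_sum]
        have h4 := sum_inv_Ico D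
        have h5 : 0 ≤ (N : ℝ) * Real.log D :=
          mul_nonneg (Nat.cast_nonneg _) (Real.log_nonneg (by exact_mod_cast hD))
        calc _ ≤ (N * Real.log D) * (1 + Real.log D) := mul_le_mul_of_nonneg_left h4 h5
          _ = _ := by ring

/-- region 2: `m < D` -/
lemma region2 (N D : ℕ) :
    ∑ x ∈ (QQ N).filter (fun x => x.2 < D), Λ x.1 ≤ N * (6 * (1 + Real.log D)) := by
  have h1 : (QQ N).filter (fun x => x.2 < D) ⊆
      ((Ico 1 D).sigma (fun d => Icc 0 (N / d))).image (fun x => ((x.2, x.1) : ℕ × ℕ)) := by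
    intro x hx
    simp only [mem_filter, mem_QQ] at hx
    obtain ⟨⟨h1, h2, h3⟩, h4⟩ := hx
    simp only [mem_image, mem_sigma, mem_Ico, mem_Icc]
    refine ⟨⟨x.2, x.1⟩, ⟨⟨h2, h4⟩, Nat.zero_le _, ?_⟩, rfl⟩
    refine (Nat.le_div_iff_mul_le (Nat.lt_of_lt_of_le Nat.zero_lt_one h2)).2 ?_
    exact h3.le
  calc ∑ x ∈ (QQ N).filter (fun x => x.2 < D), Λ x.1
      ≤ ∑ x ∈ ((Ico 1 D).sigma (fun d => Icc 0 (N / d))).image
          (fun x => ((x.2, x.1) : ℕ × ℕ)), Λ x.1 :=
        sum_le_sum_of_subset_of_nonneg h1 (fun _ _ _ => ArithmeticFunction.vonMangoldt_nonneg)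
    _ = ∑ x ∈ (Ico 1 D).sigma (fun d => Icc 0 (N / d)), Λ x.2 := by
        rw [sum_image]
        rintro ⟨a, b⟩ _ ⟨c, d⟩ _ h
        simp only [Prod.mk.injEq] at h
        obtain ⟨rfl, rfl⟩ := h
        rfl
    _ = ∑ m ∈ Ico 1 D, ∑ d ∈ Icc 0 (N / m), Λ d := by rw [sum_sigma]
    _ ≤ ∑ m ∈ Ico 1 D, (N * 6) * (1 / (m : ℝ)) := by
        refine sum_le_sum fun m _ => ?_
        have h2 := Chebyshev.psi_le_const_mul_self (x := ((N / m : ℕ) : ℝ)) (Nat.cast_nonneg _)
        rw [Chebyshev.psi_eq_sum_Icc, Nat.floor_natCast] at h2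
        have h3 : ((N / m : ℕ) : ℝ) ≤ N / m := Nat.cast_div_le
        have h4 : Real.log 4 ≤ 2 := by
          have : Real.log 4 = 2 * Real.log 2 := by
            rw [show (4 : ℝ) = 2 ^ 2 by norm_num, Real.log_pow]; norm_num
          have h5 := Real.log_two_lt_d9
          linarith
        have h6 : 0 ≤ (N : ℝ) / m := by positivity
        calc _ ≤ (Real.log 4 + 4) * ((N / m : ℕ) : ℝ) := h2
          _ ≤ 6 * (N / m) := by
              apply mul_le_mul (by linarith) h3 (Nat.cast_nonneg _) (by norm_num)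
          _ = _ := by ring
    _ ≤ _ := by
        rw [← mul_sum]
        have h4 := sum_inv_Ico D
        calc _ ≤ ((N : ℝ) * 6) * (1 + Real.log D) := mul_le_mul_of_nonneg_left h4 (by positivity)
          _ = _ := by ring

end Pool.Agent.H807R2.Dav
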