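import Mathlib
import Pool.Agent.H807R2.Dav2

/-! The bilinear blocks. -/

set_option autoImplicit false

open Finset

open scoped ArithmeticFunction.vonMangoldt

namespace Pool.Agent.H807R2.Dav

lemma conj_ee (x : ℝ) : (starRingEnd ℂ) (ee x) = ee (-x) := by
  have h1 : ee x * ee (-x) = 1 := by rw [← ee_add, add_neg_cancel, ee_zero]
  have h2 : ee x * (starRingEnd ℂ) (ee x) = 1 := by
    rw [Complex.mul_conj, Complex.normSq_eq_norm_sq, norm_ee]; simp
  have h3 : ee x ≠ 0 := by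
    intro h
    have := norm_ee x
    rw [h, norm_zero] at this
    exact zero_ne_one this
  exact mul_left_cancel₀ h3 (h2.trans h1.symm)

/-- coefficients -/
noncomputable def cf (N D d m : ℕ) : ℝ := if D ≤ d ∧ d * m < N then Λ d else 0

/-- the inner sum -/
noncomputable def AA (N D P : ℕ) (α : ℝ) (m : ℕ) : ℂ :=
  ∑ d ∈ Ico P (2 * P), (cf N D d m : ℂ) * ee ((d * m : ℕ) * α)

lemma inner_bound {N D M d d' : ℕ} (hD : 1 ≤ D) (hN : 1 ≤ N) (α : ℝ) :
    ‖∑ m ∈ Ico D M, ((cf N D d m * cf N D d' m : ℝ) : ℂ) * ee (m * (((d : ℝ) - d') * α))‖ ≤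
      (Real.log N) ^ 2 * KK M (((d : ℝ) - d') * α) := by
  have hRHS : 0 ≤ (Real.log N) ^ 2 * KK M (((d : ℝ) - d') * α) :=
    mul_nonneg (sq_nonneg _) (KK_nonneg (Nat.cast_nonneg _) _)
  by_cases hd : 1 ≤ d ∧ 1 ≤ d' ∧ D ≤ d ∧ D ≤ d' ∧ d < N ∧ d' < N
  · obtain ⟨h1, h2, h3, h4, h5, h6⟩ := hd
    set b : ℕ := min M (min ((N - 1) / d + 1) ((N - 1) / d' + 1)) with hb
    have hset : ∑ m ∈ Ico D M, ((cf N D d m * cf N D d' m : ℝ) : ℂ) *
        ee (m * (((d : ℝ) - d') * α)) =
        ((Λ d * Λ d' : ℝ) : ℂ) * ∑ m ∈ Ico D b, ee (m * (((d : ℝ) - d') * α)) := by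
      rw [mul_sum]
      have hsub : Ico D b ⊆ Ico D M := by
        intro m hm
        rw [mem_Ico] at hm ⊢
        exact ⟨hm.1, lt_of_lt_of_le hm.2 (min_le_left _ _)⟩
      rw [← sum_subset hsub]
      · refine sum_congr rfl fun m hm => ?_
        have hm' := mem_Ico.1 hm
        have h7 : m < (N - 1) / d + 1 :=
          lt_of_lt_of_le hm'.2 ((min_le_right _ _).trans (min_le_left _ _))
        have h8 : m < (N - 1) / d' + 1 :=
          lt_of_lt_of_le hm'.2 ((min_le_right _ _).trans (min_le_right _ _))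
        have h9 : d * m < N := by
          have := (Nat.le_div_iff_mul_le (by omega : 0 < d)).1 (Nat.lt_succ_iff.1 h7)
          rw [mul_comm] at this; omega
        have h10 : d' * m < N := by
          have := (Nat.le_div_iff_mul_le (by omega : 0 < d')).1 (Nat.lt_succ_iff.1 h8)
          rw [mul_comm] at this; omega
        unfold cf
        rw [if_pos ⟨h3, h9⟩, if_pos ⟨h4, h10⟩]
      · intro m hm hm2
        have hm' := mem_Ico.1 hm
        have h11 : b ≤ m := by
          by_contra h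
          exact hm2 (mem_Ico.2 ⟨hm'.1, by omega⟩)
        have h12 : ¬ (d * m < N) ∨ ¬ (d' * m < N) := by
          by_contra h
          push Not at h
          have h13 : m ≤ (N - 1) / d := by
            rw [Nat.le_div_iff_mul_le (by omega : 0 < d), mul_comm]; omega
          have h14 : m ≤ (N - 1) / d' := by
            rw [Nat.le_div_iff_mul_le (by omega : 0 < d'), mul_comm]; omega
          have : m < b := by
            rw [hb]
            exact lt_min hm'.2 (lt_min (by omega) (by omega))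
          omega
        unfold cf
        rcases h12 with h | h
        · rw [if_neg (fun hh => h hh.2)]; simp
        · rw [if_neg (c := (D ≤ d' ∧ d' * m < N)) (fun hh => h hh.2)]; simp
    rw [hset, norm_mul, Complex.norm_real, Real.norm_eq_abs,
      abs_of_nonneg (mul_nonneg ArithmeticFunction.vonMangoldt_nonneg
        ArithmeticFunction.vonMangoldt_nonneg)]
    have hL1 : Λ d ≤ Real.log N := ArithmeticFunction.vonMangoldt_le_log.trans
      (Real.log_le_log (by exact_mod_cast h1) (by exact_mod_cast h5.le))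
    have hL2 : Λ d' ≤ Real.log N := ArithmeticFunction.vonMangoldt_le_log.trans
      (Real.log_le_log (by exact_mod_cast h2) (by exact_mod_cast h6.le))
    have hg : ‖∑ m ∈ Ico D b, ee (m * (((d : ℝ) - d') * α))‖ ≤ KK M (((d : ℝ) - d') * α) := by
      rcases le_or_gt D b with h | h
      · apply geo_bound D b h
        have h15 : (b : ℝ) ≤ M := by exact_mod_cast min_le_left _ _
        have h16 : (0 : ℝ) ≤ D := Nat.cast_nonneg _
        linarith
      · rw [Ico_eq_empty_of_le h.le]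
        simp only [sum_empty, norm_zero]
        exact KK_nonneg (Nat.cast_nonneg _) _
    rw [sq]
    apply mul_le_mul _ hg (norm_nonneg _)
    · exact mul_nonneg (Real.log_nonneg (by exact_mod_cast hN))
        (Real.log_nonneg (by exact_mod_cast hN))
    · exact mul_le_mul hL1 hL2 ArithmeticFunction.vonMangoldt_nonneg
        (Real.log_nonneg (by exact_mod_cast hN))
  · have h0 : ∑ m ∈ Ico D M, ((cf N D d m * cf N D d' m : ℝ) : ℂ) *
        ee (m * (((d : ℝ) - d') * α)) = 0 := by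
      apply sum_eq_zero
      intro m hm
      have hm' := mem_Ico.1 hm
      have h1 : cf N D d m * cf N D d' m = 0 := by
        by_contra hne
        have h2 : cf N D d m ≠ 0 := left_ne_zero_of_mul hne
        have h3 : cf N D d' m ≠ 0 := right_ne_zero_of_mul hne
        unfold cf at h2 h3
        have h4 : D ≤ d ∧ d * m < N := by
          by_contra h; exact h2 (if_neg h)
        have h5 : D ≤ d' ∧ d' * m < N := by
          by_contra h; exact h3 (if_neg h)
        apply hd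
        refine ⟨by omega, by omega, h4.1, h5.1, ?_, ?_⟩
        · nlinarith [h4.2, hm'.1]
        · nlinarith [h5.2, hm'.1]
      rw [h1]; simp
    rw [h0, norm_zero]
    exact hRHS

lemma sum_sq_bound {N D P M : ℕ} (hD : 1 ≤ D) (hN : 1 ≤ N) {q : ℕ} (hq : 1 ≤ q) {a : ℤ}
    (hcop : IsCoprime a (q : ℤ)) {α : ℝ} (hα : |α - a / q| ≤ 1 / (q : ℝ) ^ 2) :
    ∑ m ∈ Ico D M, ‖AA N D P α m‖ ^ 2 ≤
      (Real.log N) ^ 2 * (P * (((P : ℝ) / q + 1) * (39 * M + 3 * q * (1 + Real.log q)))) := by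
  have h1 : ((∑ m ∈ Ico D M, ‖AA N D P α m‖ ^ 2 : ℝ) : ℂ) =
      ∑ d ∈ Ico P (2 * P), ∑ d' ∈ Ico P (2 * P), ∑ m ∈ Ico D M,
        ((cf N D d m * cf N D d' m : ℝ) : ℂ) * ee (m * (((d : ℝ) - d') * α)) := by
    push_cast
    have h2 : ∀ m ∈ Ico D M, ((‖AA N D P α m‖ : ℂ)) ^ 2 = ∑ d ∈ Ico P (2 * P),
        ∑ d' ∈ Ico P (2 * P), ((cf N D d m : ℂ) * (cf N D d' m : ℂ)) *
          ee (m * (((d : ℝ) - d') * α)) := by
      intro m _
      rw [← Complex.mul_conj']
      unfold AA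
      rw [map_sum, sum_mul_sum]
      refine sum_congr rfl fun d _ => sum_congr rfl fun d' _ => ?_
      rw [map_mul, Complex.conj_ofReal, conj_ee]
      have h3 : (m : ℝ) * (((d : ℝ) - d') * α) = ((d * m : ℕ) : ℝ) * α + -(((d' * m : ℕ) : ℝ) * α) := by
        push_cast; ring
      rw [h3, ee_add]
      ring
    rw [sum_congr rfl h2]
    rw [sum_comm]
    refine sum_congr rfl fun d _ => ?_
    rw [sum_comm]
  have h4 : ∑ m ∈ Ico D M, ‖AA N D P α m‖ ^ 2 =
      ‖((∑ m ∈ Ico D M, ‖AA N D P α m‖ ^ 2 : ℝ) : ℂ)‖ := by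
    rw [Complex.norm_real, Real.norm_of_nonneg]
    exact sum_nonneg fun _ _ => sq_nonneg _
  rw [h4, h1]
  refine (norm_sum_le _ _).trans ?_
  calc ∑ d ∈ Ico P (2 * P), ‖∑ d' ∈ Ico P (2 * P), ∑ m ∈ Ico D M,
        ((cf N D d m * cf N D d' m : ℝ) : ℂ) * ee (m * (((d : ℝ) - d') * α))‖
      ≤ ∑ d ∈ Ico P (2 * P), (Real.log N) ^ 2 *
          (((P : ℝ) / q + 1) * (39 * M + 3 * q * (1 + Real.log q))) := by
        refine sum_le_sum fun d _ => ?_
        refine (norm_sum_le _ _).trans ?_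
        calc ∑ d' ∈ Ico P (2 * P), ‖∑ m ∈ Ico D M,
              ((cf N D d m * cf N D d' m : ℝ) : ℂ) * ee (m * (((d : ℝ) - d') * α))‖
            ≤ ∑ d' ∈ Ico P (2 * P), (Real.log N) ^ 2 * KK M (((d : ℝ) - d') * α) :=
              sum_le_sum fun d' _ => inner_bound hD hN α
          _ = (Real.log N) ^ 2 * ∑ j ∈ range P, KK M (((P : ℝ) - d) * α + j * α) := by
              rw [← mul_sum, sum_Ico_eq_sum_range, show 2 * P - P = P by omega]
              congr 1
              refine sum_congr rfl fun j _ => ?_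
              rw [← KK_neg]
              congr 1
              push_cast
              ring
          _ ≤ _ := by
              apply mul_le_mul_of_nonneg_left _ (sq_nonneg _)
              exact vino hq hcop hα (Nat.cast_nonneg M) _ P
    _ = _ := by
        rw [sum_const, Nat.card_Ico, show 2 * P - P = P by omega, nsmul_eq_mul]
        ring

/-- the dyadic block -/
def BB (N D P : ℕ) : Finset (ℕ × ℕ) :=
  (QQ N).filter (fun x => (D ≤ x.1 ∧ D ≤ x.2) ∧ (P ≤ x.1 ∧ x.1 < 2 * P))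

lemma BB_sum {N D P : ℕ} (hP : 1 ≤ P) (hD : 1 ≤ D) (α : ℝ) :
    ∑ x ∈ BB N D P, FF α x = ∑ m ∈ Ico D (N / P + 1), (mu m : ℂ) * AA N D P α m := by
  have h1 : BB N D P = ((Ico P (2 * P)) ×ˢ (Ico D (N / P + 1))).filter
      (fun x => D ≤ x.1 ∧ x.1 * x.2 < N) := by
    ext x
    unfold BB
    simp only [mem_filter, mem_QQ, mem_product, mem_Ico]
    constructor
    · rintro ⟨⟨h1, h2, h3⟩, ⟨h4, h5⟩, h6, h7⟩
      refine ⟨⟨⟨h6, h7⟩, h5, ?_⟩, h4, h3⟩
      apply Nat.lt_succ_of_le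
      refine (Nat.le_div_iff_mul_le (by omega)).2 ?_
      nlinarith
    · rintro ⟨⟨⟨h6, h7⟩, h5, h8⟩, h4, h3⟩
      exact ⟨⟨by omega, by omega, h3⟩, ⟨h4, h5⟩, h6, h7⟩
  rw [h1, sum_filter, sum_product_right]
  refine sum_congr rfl fun m _ => ?_
  unfold AA
  rw [mul_sum]
  refine sum_congr rfl fun d _ => ?_
  unfold cf FF
  by_cases h : D ≤ d ∧ d * m < N
  · rw [if_pos h, if_pos h]
    push_cast
    ring
  · rw [if_neg h, if_neg h]
    simp

set_option maxHeartbeats 2000000 in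
lemma block_bound {N D P : ℕ} (hP : 1 ≤ P) (hD : 1 ≤ D) (hN : 1 ≤ Real.log N)
    (hDL : (Real.log N) ^ 5 ≤ D) {q : ℕ} (hqD : D ≤ q) (hqN : q * D ≤ N) {a : ℤ}
    (hcop : IsCoprime a (q : ℤ)) {α : ℝ} (hα : |α - a / q| ≤ 1 / (q : ℝ) ^ 2) :
    ‖∑ x ∈ BB N D P, FF α x‖ ≤ 23 * N / Real.log N := by
  have hN0 : 0 < Real.log N := by linarith
  have hq : 1 ≤ q := by omega
  have hN1 : 1 ≤ N := by nlinarith
  have hN1' : (1 : ℝ) ≤ N := by exact_mod_cast hN1
  rcases (BB N D P).eq_empty_or_nonempty with he | ⟨x, hx⟩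
  · rw [he]
    simp only [sum_empty, norm_zero]
    positivity
  unfold BB at hx
  simp only [mem_filter, mem_QQ] at hx
  obtain ⟨⟨h1, h2, h3⟩, ⟨h4, h5⟩, h6, h7⟩ := hx
  have hPD : P * D ≤ N := by nlinarith
  have hDP : D ≤ 2 * P := by omega
  rw [BB_sum hP hD]
  set M : ℕ := N / P + 1 with hM
  have hstep1 : ‖∑ m ∈ Ico D M, (mu m : ℂ) * AA N D P α m‖ ≤ ∑ m ∈ Ico D M, ‖AA N D P α m‖ := by
    refine (norm_sum_le _ _).trans (sum_le_sum fun m _ => ?_)
    rw [norm_mul, Complex.norm_real, Real.norm_eq_abs]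
    exact mul_le_of_le_one_left (norm_nonneg _) (abs_mu_le m)
  have hstep2 : (∑ m ∈ Ico D M, ‖AA N D P α m‖) ^ 2 ≤ M * ∑ m ∈ Ico D M, ‖AA N D P α m‖ ^ 2 := by
    refine (sq_sum_le_card_mul_sum_sq).trans ?_
    apply mul_le_mul_of_nonneg_right _ (sum_nonneg fun _ _ => sq_nonneg _)
    rw [Nat.card_Ico]
    exact_mod_cast Nat.sub_le _ _
  have hstep3 := sum_sq_bound (N := N) (D := D) (P := P) (M := M) hD hN1 hq hcop hα
  set L : ℝ := Real.log N with hL
  have hPr : (0 : ℝ) < P := by exact_mod_cast hP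
  have hqr : (0 : ℝ) < q := by exact_mod_cast hq
  have hDr : (0 : ℝ) < D := by exact_mod_cast hD
  have hPDr : (P : ℝ) * D ≤ N := by exact_mod_cast hPD
  have hDPr : (D : ℝ) ≤ 2 * P := by exact_mod_cast hDP
  have hqDr : (D : ℝ) ≤ q := by exact_mod_cast hqD
  have hqNr : (q : ℝ) * D ≤ N := by exact_mod_cast hqN
  have hD1r : (1 : ℝ) ≤ D := by exact_mod_cast hD
  have hPN : (P : ℝ) ≤ N := by nlinarith
  have hqN2 : (q : ℝ) ≤ N := by nlinarith
  have hMr : (M : ℝ) ≤ 2 * N / P := by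
    rw [hM]
    push_cast
    have h8 : ((N / P : ℕ) : ℝ) ≤ N / P := Nat.cast_div_le
    have h9 : (1 : ℝ) ≤ N / P := by rw [le_div_iff₀ hPr]; linarith
    calc ((N / P : ℕ) : ℝ) + 1 ≤ N / P + N / P := add_le_add h8 h9
      _ = _ := by ring
  have hlq : 1 + Real.log q ≤ 2 * L := by
    have : Real.log q ≤ L := Real.log_le_log hqr hqN2
    linarith
  have hlq0 : 0 ≤ 1 + Real.log q := by
    have : 0 ≤ Real.log (q : ℝ) := Real.log_nonneg (by exact_mod_cast hq)
    linarith
  -- the main numerical inequality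
  have hmain : ((P : ℝ) / q + 1) * (39 * M + 3 * q * (1 + Real.log q)) ≤ 246 * L * N / D := by
    have e1 : 39 * (M : ℝ) + 3 * q * (1 + Real.log q) ≤ 78 * N / P + 6 * q * L := by
      have e2 : 39 * (M : ℝ) ≤ 78 * N / P := by
        calc 39 * (M : ℝ) ≤ 39 * (2 * N / P) := by linarith
          _ = _ := by ring
      have e3 : 3 * (q : ℝ) * (1 + Real.log q) ≤ 3 * q * (2 * L) :=
        mul_le_mul_of_nonneg_left hlq (by positivity)
      linarith
    have e4 : ((P : ℝ) / q + 1) * (39 * M + 3 * q * (1 + Real.log q)) ≤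
        ((P : ℝ) / q + 1) * (78 * N / P + 6 * q * L) :=
      mul_le_mul_of_nonneg_left e1 (by positivity)
    have e5 : ((P : ℝ) / q + 1) * (78 * N / P + 6 * q * L) =
        78 * (N / q) + 6 * L * P + 78 * (N / P) + 6 * L * q := by
      field_simp
      ring
    have f1 : (N : ℝ) / q ≤ N / D := div_le_div_of_nonneg_left (by positivity) hDr hqDr
    have f2 : (P : ℝ) ≤ N / D := by rw [le_div_iff₀ hDr]; exact hPDr
    have f3 : (N : ℝ) / P ≤ 2 * (N / D) := by
      rw [div_le_iff₀ hPr]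
      have : 2 * ((N : ℝ) / D) * P = N * ((2 * P) / D) := by ring
      rw [this]
      have h10 : (1 : ℝ) ≤ (2 * P) / D := by rw [le_div_iff₀ hDr]; linarith
      nlinarith
    have f4 : (q : ℝ) ≤ N / D := by rw [le_div_iff₀ hDr]; exact hqNr
    have f5 : 0 ≤ (N : ℝ) / D := by positivity
    have f6 : 6 * L * P ≤ 6 * L * (N / D) := mul_le_mul_of_nonneg_left f2 (by positivity)
    have f7 : 6 * L * q ≤ 6 * L * (N / D) := mul_le_mul_of_nonneg_left f4 (by positivity)
    have f8 : (N : ℝ) / D ≤ L * (N / D) := by nlinarith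
    calc _ ≤ 78 * ((N : ℝ) / q) + 6 * L * P + 78 * (N / P) + 6 * L * q := by rw [← e5]; exact e4
      _ ≤ 246 * (L * (N / D)) := by linarith
      _ = _ := by ring
  have hsq : (∑ m ∈ Ico D M, ‖AA N D P α m‖) ^ 2 ≤ (23 * N / L) ^ 2 := by
    calc (∑ m ∈ Ico D M, ‖AA N D P α m‖) ^ 2
        ≤ M * ∑ m ∈ Ico D M, ‖AA N D P α m‖ ^ 2 := hstep2
      _ ≤ (2 * N / P) * (L ^ 2 * (P * (246 * L * N / D))) := by
          apply mul_le_mul hMr _ (sum_nonneg fun _ _ => sq_nonneg _) (by positivity)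
          refine hstep3.trans ?_
          apply mul_le_mul_of_nonneg_left _ (sq_nonneg _)
          exact mul_le_mul_of_nonneg_left hmain hPr.le
      _ = 492 * N ^ 2 * L ^ 3 / D := by field_simp; ring
      _ ≤ 492 * N ^ 2 * L ^ 3 / L ^ 5 :=
          div_le_div_of_nonneg_left (by positivity) (by positivity) hDL
      _ = 492 * (N ^ 2 / L ^ 2) := by field_simp
      _ ≤ 529 * (N ^ 2 / L ^ 2) := by
          have : 0 ≤ (N : ℝ) ^ 2 / L ^ 2 := by positivity
          linarith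
      _ = (23 * N / L) ^ 2 := by ring
  exact hstep1.trans (abs_le_of_sq_le_sq' hsq (by positivity)).2

end Pool.Agent.H807R2.Dav
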