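import Mathlib
import Pool.Agent.H807R2.Dav3

/-! Minor arcs: final estimate. -/

set_option autoImplicit false

open Finset

open scoped ArithmeticFunction.vonMangoldt

namespace Pool.Agent.H807R2.Dav

lemma log2_bound {N : ℕ} (hN : 1 ≤ Real.log N) :
    ((Nat.log 2 N + 1 : ℕ) : ℝ) ≤ 3 * Real.log N := by
  have hN0 : N ≠ 0 := by
    rintro rfl
    simp at hN
    linarith
  have h1 : ((2 : ℝ)) ^ (Nat.log 2 N) ≤ N := by exact_mod_cast Nat.pow_log_le_self 2 hN0
  have h2 : (Nat.log 2 N : ℝ) * Real.log 2 ≤ Real.log N := by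
    rw [← Real.log_pow]
    exact Real.log_le_log (by positivity) h1
  have h3 := Real.log_two_gt_d9
  have h4 : (Nat.log 2 N : ℝ) ≤ 2 * Real.log N := by
    have : (0 : ℝ) ≤ Nat.log 2 N := Nat.cast_nonneg _
    nlinarith
  push_cast
  linarith

lemma region3 {N D : ℕ} (hD : 1 ≤ D) (hN : 1 ≤ Real.log N)
    (hDL : (Real.log N) ^ 5 ≤ D) {q : ℕ} (hqD : D ≤ q) (hqN : q * D ≤ N) {a : ℤ}
    (hcop : IsCoprime a (q : ℤ)) {α : ℝ} (hα : |α - a / q| ≤ 1 / (q : ℝ) ^ 2) :
    ‖∑ x ∈ (QQ N).filter (fun x => D ≤ x.1 ∧ D ≤ x.2), FF α x‖ ≤ 69 * N := by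
  have h1 : ∑ x ∈ (QQ N).filter (fun x => D ≤ x.1 ∧ D ≤ x.2), FF α x =
      ∑ j ∈ range (Nat.log 2 N + 1), ∑ x ∈ BB N D (2 ^ j), FF α x := by
    rw [← sum_fiberwise_of_maps_to (t := range (Nat.log 2 N + 1)) (g := fun x => Nat.log 2 x.1)]
    · refine sum_congr rfl fun j _ => ?_
      apply sum_congr _ (fun _ _ => rfl)
      ext x
      unfold BB
      simp only [mem_filter, mem_QQ]
      constructor
      · rintro ⟨⟨⟨h1, h2, h3⟩, h4⟩, h5⟩
        refine ⟨⟨h1, h2, h3⟩, h4, ?_, ?_⟩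
        · rw [← h5]; exact Nat.pow_log_le_self 2 (by omega)
        · rw [← h5, ← pow_succ']; exact Nat.lt_pow_succ_log_self (by norm_num) _
      · rintro ⟨⟨h1, h2, h3⟩, h4, h5, h6⟩
        refine ⟨⟨⟨h1, h2, h3⟩, h4⟩, ?_⟩
        rw [← pow_succ'] at h6
        exact (Nat.log_eq_iff (Or.inr ⟨by norm_num, by omega⟩)).2 ⟨h5, h6⟩
    · intro x hx
      simp only [mem_filter, mem_QQ] at hx
      rw [mem_range]
      apply Nat.lt_succ_of_le
      apply Nat.log_mono_right
      nlinarith [hx.1.1, hx.1.2.1, hx.1.2.2]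
  rw [h1]
  refine (norm_sum_le _ _).trans ?_
  calc ∑ j ∈ range (Nat.log 2 N + 1), ‖∑ x ∈ BB N D (2 ^ j), FF α x‖
      ≤ ∑ j ∈ range (Nat.log 2 N + 1), 23 * N / Real.log N :=
        sum_le_sum fun j _ => block_bound Nat.one_le_two_pow hD hN hDL hqD hqN hcop hα
    _ = ((Nat.log 2 N + 1 : ℕ) : ℝ) * (23 * N / Real.log N) := by
        rw [sum_const, card_range, nsmul_eq_mul]
    _ ≤ (3 * Real.log N) * (23 * N / Real.log N) :=
        mul_le_mul_of_nonneg_right (log2_bound hN) (by positivity)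
    _ = 69 * N := by
        have : Real.log N ≠ 0 := by linarith
        field_simp
        ring

lemma sum_QQ_bound {N D : ℕ} (hD : 1 ≤ D) (hN : 1 ≤ Real.log N)
    (hDL : (Real.log N) ^ 5 ≤ D) {q : ℕ} (hqD : D ≤ q) (hqN : q * D ≤ N) {a : ℤ}
    (hcop : IsCoprime a (q : ℤ)) {α : ℝ} (hα : |α - a / q| ≤ 1 / (q : ℝ) ^ 2) :
    ‖∑ x ∈ QQ N, FF α x‖ ≤ 76 * N * (1 + Real.log D) ^ 2 := by
  have h1 : ∑ x ∈ QQ N, FF α x = ∑ x ∈ (QQ N).filter (fun x => x.1 < D), FF α x +
      (∑ x ∈ ((QQ N).filter (fun x => ¬ x.1 < D)).filter (fun x => x.2 < D), FF α x +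
       ∑ x ∈ ((QQ N).filter (fun x => ¬ x.1 < D)).filter (fun x => ¬ x.2 < D), FF α x) := by
    rw [sum_filter_add_sum_filter_not, sum_filter_add_sum_filter_not]
  have h2 : ((QQ N).filter (fun x => ¬ x.1 < D)).filter (fun x => ¬ x.2 < D) =
      (QQ N).filter (fun x => D ≤ x.1 ∧ D ≤ x.2) := by
    rw [filter_filter]
    simp only [not_lt]
  have h3 : ‖∑ x ∈ (QQ N).filter (fun x => x.1 < D), FF α x‖ ≤
      N * (Real.log D * (1 + Real.log D)) := by
    refine (norm_sum_le _ _).trans ((sum_le_sum fun x _ => norm_FF_le α x).trans ?_)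
    exact region1 N D hD
  have h4 : ‖∑ x ∈ ((QQ N).filter (fun x => ¬ x.1 < D)).filter (fun x => x.2 < D), FF α x‖ ≤
      N * (6 * (1 + Real.log D)) := by
    refine (norm_sum_le _ _).trans ((sum_le_sum fun x _ => norm_FF_le α x).trans ?_)
    refine le_trans ?_ (region2 N D)
    apply sum_le_sum_of_subset_of_nonneg
    · intro x hx
      simp only [mem_filter] at hx ⊢
      exact ⟨hx.1.1, hx.2⟩
    · exact fun _ _ _ => ArithmeticFunction.vonMangoldt_nonneg
  have h5 := region3 hD hN hDL hqD hqN hcop hα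
  rw [h1, h2]
  have hD0 : 0 ≤ Real.log (D : ℝ) := Real.log_nonneg (by exact_mod_cast hD)
  have hN0 : (0 : ℝ) ≤ N := Nat.cast_nonneg _
  calc _ ≤ N * (Real.log D * (1 + Real.log D)) + (N * (6 * (1 + Real.log D)) + 69 * N) :=
        (norm_add_le _ _).trans (add_le_add h3 ((norm_add_le _ _).trans (add_le_add h4 h5)))
    _ ≤ 76 * N * (1 + Real.log D) ^ 2 := by
        have h6 : Real.log D * (1 + Real.log D) + 6 * (1 + Real.log D) + 69 ≤
            76 * (1 + Real.log D) ^ 2 := by nlinarith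
        nlinarith

lemma log_sum (N : ℕ) : ∑ n ∈ range N, (if n = 0 then 0 else Real.log N - Real.log n) ≤ N := by
  induction N with
  | zero => simp
  | succ N ih =>
    rcases Nat.eq_zero_or_pos N with h | h
    · subst h; simp
    have h1 : ∑ n ∈ range (N + 1), (if n = 0 then 0 else Real.log ((N + 1 : ℕ) : ℝ) - Real.log n) =
        ∑ n ∈ range N, (if n = 0 then 0 else Real.log N - Real.log n) +
        N * (Real.log ((N + 1 : ℕ) : ℝ) - Real.log N) := by
      rw [sum_range_succ, if_neg (by omega : N ≠ 0)]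
      have h2 : ∀ n ∈ range N, (if n = 0 then 0 else Real.log ((N + 1 : ℕ) : ℝ) - Real.log n) =
          (if n = 0 then 0 else Real.log N - Real.log n) +
          (if n = 0 then 0 else Real.log ((N + 1 : ℕ) : ℝ) - Real.log N) := by
        intro n _
        split_ifs <;> ring
      rw [sum_congr rfl h2, sum_add_distrib]
      have h3 : ∑ n ∈ range N, (if n = 0 then 0 else Real.log ((N + 1 : ℕ) : ℝ) - Real.log N) =
          (N - 1) * (Real.log ((N + 1 : ℕ) : ℝ) - Real.log N) := by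
        obtain ⟨k, rfl⟩ : ∃ k, N = k + 1 := ⟨N - 1, by omega⟩
        rw [sum_range_succ']
        simp
        ring
      rw [h3]
      ring
    rw [h1]
    have hNr : (0 : ℝ) < N := by exact_mod_cast h
    have h4 : Real.log ((N + 1 : ℕ) : ℝ) - Real.log N ≤ 1 / N := by
      rw [← Real.log_div (by positivity) (by positivity)]
      have h5 := Real.log_le_sub_one_of_pos (x := ((N + 1 : ℕ) : ℝ) / N) (by positivity)
      have h6 : ((N + 1 : ℕ) : ℝ) / N - 1 = 1 / N := by
        push_cast; field_simp; ring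
      linarith
    have h7 : (N : ℝ) * (Real.log ((N + 1 : ℕ) : ℝ) - Real.log N) ≤ 1 := by
      calc (N : ℝ) * (Real.log ((N + 1 : ℕ) : ℝ) - Real.log N) ≤ N * (1 / N) :=
            mul_le_mul_of_nonneg_left h4 hNr.le
        _ = 1 := by field_simp
    push_cast at *
    linarith

/-- the sum -/
noncomputable def SS (N : ℕ) (α : ℝ) : ℂ := ∑ n ∈ range N, (mu n : ℂ) * ee (n * α)

lemma SS_le (N : ℕ) (α : ℝ) : ‖SS N α‖ ≤ N := by
  unfold SS
  refine (norm_sum_le _ _).trans ?_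
  calc ∑ n ∈ range N, ‖(mu n : ℂ) * ee (n * α)‖ ≤ ∑ n ∈ range N, (1 : ℝ) := by
        refine sum_le_sum fun n _ => ?_
        rw [norm_mul, norm_ee, mul_one, Complex.norm_real]
        exact abs_mu_le n
    _ = N := by simp

theorem minor {N D : ℕ} (hD : 1 ≤ D) (hN : 1 ≤ Real.log N)
    (hDL : (Real.log N) ^ 5 ≤ D) {q : ℕ} (hqD : D ≤ q) (hqN : q * D ≤ N) {a : ℤ}
    (hcop : IsCoprime a (q : ℤ)) {α : ℝ} (hα : |α - a / q| ≤ 1 / (q : ℝ) ^ 2) :
    ‖SS N α‖ ≤ 77 * N * (1 + Real.log D) ^ 2 / Real.log N := by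
  have hN0 : 0 < Real.log N := by linarith
  rw [le_div_iff₀ hN0]
  have h1 : SS N α * (Real.log N : ℂ) =
      ∑ n ∈ range N, ((mu n * Real.log n : ℝ) : ℂ) * ee (n * α) +
      ∑ n ∈ range N, ((mu n * (if n = 0 then 0 else Real.log N - Real.log n) : ℝ) : ℂ) *
        ee (n * α) := by
    unfold SS
    rw [sum_mul, ← sum_add_distrib]
    refine sum_congr rfl fun n _ => ?_
    by_cases h : n = 0
    · subst h; simp [mu_zero]
    · rw [if_neg h]; push_cast; ring
  have h2 : ‖SS N α‖ * Real.log N = ‖SS N α * (Real.log N : ℂ)‖ := by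
    rw [norm_mul, Complex.norm_real, Real.norm_of_nonneg hN0.le]
  rw [h2, h1, T_eq]
  have h3 := sum_QQ_bound hD hN hDL hqD hqN hcop hα
  have h4 : ‖∑ n ∈ range N, ((mu n * (if n = 0 then 0 else Real.log N - Real.log n) : ℝ) : ℂ) *
        ee (n * α)‖ ≤ N := by
    refine (norm_sum_le _ _).trans (le_trans (sum_le_sum fun n hn => ?_) (log_sum N))
    rw [norm_mul, norm_ee, mul_one, Complex.norm_real, Real.norm_eq_abs, abs_mul]
    have h5 : 0 ≤ (if n = 0 then 0 else Real.log N - Real.log n) := by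
      split_ifs with h
      · exact le_rfl
      · have := mem_range.1 hn
        have h6 : Real.log n ≤ Real.log N := Real.log_le_log
          (by exact_mod_cast Nat.pos_of_ne_zero h) (by exact_mod_cast this.le)
        linarith
    rw [abs_of_nonneg h5]
    exact mul_le_of_le_one_left h5 (abs_mu_le n)
  have hD0 : 0 ≤ Real.log (D : ℝ) := Real.log_nonneg (by exact_mod_cast hD)
  have hN1 : (0 : ℝ) ≤ N := Nat.cast_nonneg _
  calc _ ≤ 76 * N * (1 + Real.log D) ^ 2 + N := by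
        refine (norm_add_le _ _).trans (add_le_add ?_ h4)
        rw [norm_neg]; exact h3
    _ ≤ 77 * N * (1 + Real.log D) ^ 2 := by
        have : 1 ≤ (1 + Real.log (D : ℝ)) ^ 2 := by nlinarith
        nlinarith

end Pool.Agent.H807R2.Dav
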