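import Mathlib
import Pool.Agent.H807R2.DavIface
import Pool.Agent.H807R2.Dav4

/-! Major arcs and the Davenport-type bound. -/

set_option autoImplicit false

open Finset Filter Topology

namespace Pool.Agent.H807R2.Dav

lemma abel (c : ℕ → ℂ) (β : ℝ) (N : ℕ) :
    ∑ n ∈ range N, c n * ee (n * β) = (∑ n ∈ range N, c n) * ee (N * β) -
      ∑ n ∈ range N, (∑ k ∈ range (n + 1), c k) * (ee ((n + 1 : ℕ) * β) - ee (n * β)) := by
  induction N with
  | zero => simp
  | succ N ih =>
    rw [sum_range_succ, ih, sum_range_succ (fun n => (∑ k ∈ range (n + 1), c k) *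
      (ee ((n + 1 : ℕ) * β) - ee (n * β)))]
    rw [sum_range_succ c N]
    ring

lemma abel_bound (c : ℕ → ℂ) (β : ℝ) (N : ℕ) {B : ℝ}
    (hB : ∀ u ≤ N, ‖∑ n ∈ range u, c n‖ ≤ B) :
    ‖∑ n ∈ range N, c n * ee (n * β)‖ ≤ B * (1 + N * (2 * Real.pi * |β|)) := by
  have hB0 : 0 ≤ B := (norm_nonneg _).trans (hB 0 (Nat.zero_le _))
  rw [abel]
  refine (norm_sub_le _ _).trans ?_
  have h1 : ‖(∑ n ∈ range N, c n) * ee (N * β)‖ ≤ B := by
    rw [norm_mul, norm_ee, mul_one]; exact hB N le_rfl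
  have h2 : ‖∑ n ∈ range N, (∑ k ∈ range (n + 1), c k) *
      (ee ((n + 1 : ℕ) * β) - ee (n * β))‖ ≤ ∑ n ∈ range N, B * (2 * Real.pi * |β|) := by
    refine (norm_sum_le _ _).trans (sum_le_sum fun n hn => ?_)
    rw [norm_mul]
    apply mul_le_mul (hB _ (mem_range.1 hn)) _ (norm_nonneg _) hB0
    have h3 : ee ((n + 1 : ℕ) * β) - ee (n * β) = -(ee (n * β) * (1 - ee β)) := by
      have : ((n + 1 : ℕ) : ℝ) * β = n * β + β := by push_cast; ring
      rw [this, ee_add]; ring
    rw [h3, norm_neg, norm_mul, norm_ee, one_mul]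
    exact dd_le β
  rw [sum_const, card_range, nsmul_eq_mul] at h2
  calc _ ≤ B + N * (B * (2 * Real.pi * |β|)) := add_le_add h1 h2
    _ = _ := by ring

lemma rational_sum {q : ℕ} (hq : 1 ≤ q) (a : ℤ) (u : ℕ) {E : ℝ}
    (hE : ∀ r < q, |∑ n ∈ (range u).filter (fun n => n % q = r),
      ((ArithmeticFunction.moebius n : ℤ) : ℝ)| ≤ E) :
    ‖∑ n ∈ range u, (mu n : ℂ) * ee (n * ((a : ℝ) / q))‖ ≤ q * E := by
  have hq0 : (q : ℝ) ≠ 0 := by positivity
  have h1 : ∑ n ∈ range u, (mu n : ℂ) * ee (n * ((a : ℝ) / q)) =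
      ∑ r ∈ range q, ee (r * ((a : ℝ) / q)) *
        ((∑ n ∈ (range u).filter (fun n => n % q = r), mu n : ℝ) : ℂ) := by
    rw [← sum_fiberwise_of_maps_to (t := range q) (g := fun n => n % q)
      (fun n _ => mem_range.2 (Nat.mod_lt _ (by omega)))]
    refine sum_congr rfl fun r _ => ?_
    push_cast
    rw [mul_sum]
    refine sum_congr rfl fun n hn => ?_
    have hn' := (mem_filter.1 hn).2
    have h2 : (n : ℝ) * ((a : ℝ) / q) = r * ((a : ℝ) / q) + (((n / q : ℕ) * a : ℤ) : ℝ) := by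
      have h3 : (n : ℝ) = r + q * (n / q : ℕ) := by
        have := Nat.mod_add_div n q
        rw [hn'] at this
        exact_mod_cast this.symm
      have h4 : (((n / q : ℕ) * a : ℤ) : ℝ) = ((n / q : ℕ) : ℝ) * a := by push_cast; rfl
      rw [h4]
      nth_rewrite 1 [h3]
      field_simp
    rw [h2, ee_add_int]
    ring
  rw [h1]
  refine (norm_sum_le _ _).trans ?_
  calc ∑ r ∈ range q, ‖ee (r * ((a : ℝ) / q)) *
        ((∑ n ∈ (range u).filter (fun n => n % q = r), mu n : ℝ) : ℂ)‖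
      ≤ ∑ r ∈ range q, E := by
        refine sum_le_sum fun r hr => ?_
        rw [norm_mul, norm_ee, one_mul, Complex.norm_real]
        exact hE r (mem_range.1 hr)
    _ = q * E := by rw [sum_const, card_range, nsmul_eq_mul]

lemma eventually_conditions (N₀ : ℕ) : ∀ᶠ N : ℕ in atTop, 16384 ≤ Real.log N ∧
    2 * (Real.log N) ^ 6 ≤ √N ∧ (N₀ : ℝ) ≤ √N := by
  have hc : Tendsto (fun N : ℕ => (N : ℝ)) atTop atTop := tendsto_natCast_atTop_atTop
  have h1 : ∀ᶠ N : ℕ in atTop, 16384 ≤ Real.log N :=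
    (Real.tendsto_log_atTop.comp hc).eventually_ge_atTop _
  have hs : Tendsto (fun N : ℕ => √(N : ℝ)) atTop atTop := Real.tendsto_sqrt_atTop.comp hc
  have h2 : ∀ᶠ N : ℕ in atTop, (N₀ : ℝ) ≤ √N := hs.eventually_ge_atTop _
  have h3 : ∀ᶠ x : ℝ in atTop, (Real.log x) ^ 6 ≤ (1 / 128) * x := by
    have h4 := (Real.isLittleO_pow_log_id_atTop (n := 6)).bound (c := 1 / 128) (by norm_num)
    filter_upwards [h4, eventually_ge_atTop 1] with x hx hx1
    have h5 : 0 ≤ Real.log x := Real.log_nonneg hx1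
    rw [Real.norm_of_nonneg (by positivity), id, Real.norm_of_nonneg (by linarith)] at hx
    exact hx
  have h6 := hs.eventually h3
  filter_upwards [h1, h2, h6] with N a1 a2 a3
  refine ⟨a1, ?_, a2⟩
  have h7 : Real.log (√(N : ℝ)) = Real.log N / 2 := Real.log_sqrt (Nat.cast_nonneg _)
  rw [h7] at a3
  have : (Real.log (N : ℝ) / 2) ^ 6 = (Real.log N) ^ 6 / 64 := by ring
  rw [this] at a3
  linarith

set_option maxHeartbeats 2000000 in
lemma major (h : SWMu) : ∃ N₁ : ℕ, ∀ N : ℕ, N₁ ≤ N → 16384 ≤ Real.log N ∧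
    2 * (Real.log N) ^ 6 ≤ √N ∧ ∀ (q : ℕ) (a : ℤ) (D : ℝ) (β : ℝ), 1 ≤ q → (q : ℝ) ≤ D →
      1 ≤ D → D ≤ 2 * (Real.log N) ^ 5 → |β| ≤ D / N →
      ‖∑ n ∈ range N, ((mu n : ℂ) * ee (n * ((a : ℝ) / q))) * ee (n * β)‖ ≤
        8 * N / Real.log N := by
  obtain ⟨N₀, hN₀⟩ := h 12 6
  obtain ⟨N₁, hN₁⟩ := eventually_atTop.1 (eventually_conditions N₀)
  refine ⟨N₁, fun N hN => ?_⟩
  obtain ⟨c1, c2, c3⟩ := hN₁ N hN
  refine ⟨c1, c2, ?_⟩
  intro q a D β hq hqD hD1 hDL hβ
  set L : ℝ := Real.log N with hL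
  have hL0 : 0 < L := by linarith
  have hD0 : 0 < D := by linarith
  have hNpos : 0 < N := by
    rcases Nat.eq_zero_or_pos N with h0 | h0
    · rw [h0] at hL; simp at hL; linarith
    · exact h0
  have hNr : (0 : ℝ) < N := by exact_mod_cast hNpos
  have hsq : √(N : ℝ) * √N = N := Real.mul_self_sqrt hNr.le
  have hsq0 : 0 < √(N : ℝ) := Real.sqrt_pos.2 hNr
  have hbound : ∀ u ≤ N, ‖∑ n ∈ range u, (mu n : ℂ) * ee (n * ((a : ℝ) / q))‖ ≤ N / (D * L) := by
    intro u hu
    rcases le_or_gt (u : ℝ) (N / (D * L)) with hcase | hcase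
    · refine le_trans ?_ hcase
      exact SS_le u ((a : ℝ) / q)
    · -- u is large
      have hDL2 : D * L ≤ √N := by
        calc D * L ≤ 2 * L ^ 5 * L := mul_le_mul_of_nonneg_right hDL hL0.le
          _ = 2 * L ^ 6 := by ring
          _ ≤ √N := c2
      have hu1 : √(N : ℝ) ≤ u := by
        refine le_trans ?_ hcase.le
        rw [le_div_iff₀ (by positivity)]
        calc √(N : ℝ) * (D * L) ≤ √N * √N := mul_le_mul_of_nonneg_left hDL2 hsq0.le
          _ = N := hsq
      have hu0 : (0 : ℝ) < u := lt_of_lt_of_le hsq0 hu1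
      have hlu : L / 2 ≤ Real.log u := by
        rw [hL, ← Real.log_sqrt hNr.le]
        exact Real.log_le_log hsq0 hu1
      have huN₀ : N₀ ≤ u := by
        have : (N₀ : ℝ) ≤ u := c3.trans hu1
        exact_mod_cast this
      have hqu : (q : ℝ) ≤ (Real.log u) ^ 6 := by
        calc (q : ℝ) ≤ D := hqD
          _ ≤ 2 * L ^ 5 := hDL
          _ ≤ (L / 2) ^ 6 := by
              have : (L / 2) ^ 6 = L ^ 5 * (L / 64) := by ring
              rw [this, mul_comm]
              apply mul_le_mul_of_nonneg_left _ (by positivity)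
              linarith
          _ ≤ (Real.log u) ^ 6 := pow_le_pow_left₀ (by positivity) hlu 6
      have hE : ∀ r < q, |∑ n ∈ (range u).filter (fun n => n % q = r),
          ((ArithmeticFunction.moebius n : ℤ) : ℝ)| ≤ u / (Real.log u) ^ 12 := fun r _ =>
        hN₀ u huN₀ q r hq hqu
      refine (rational_sum hq a u hE).trans ?_
      have huN : (u : ℝ) ≤ N := by exact_mod_cast hu
      have h12 : (L / 2) ^ 12 ≤ (Real.log u) ^ 12 := pow_le_pow_left₀ (by positivity) hlu 12
      calc (q : ℝ) * (u / (Real.log u) ^ 12) ≤ D * (N / (L / 2) ^ 12) := by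
            apply mul_le_mul hqD _ (by positivity) hD0.le
            exact div_le_div₀ hNr.le huN (by positivity) h12
        _ ≤ N / (D * L) := by
            rw [mul_div_assoc', div_le_div_iff₀ (by positivity) (by positivity)]
            have e1 : D * N * (D * L) = N * (D ^ 2 * L) := by ring
            rw [e1]
            apply mul_le_mul_of_nonneg_left _ hNr.le
            have e2 : D ^ 2 ≤ (2 * L ^ 5) ^ 2 := pow_le_pow_left₀ hD0.le hDL 2
            calc D ^ 2 * L ≤ (2 * L ^ 5) ^ 2 * L := mul_le_mul_of_nonneg_right e2 hL0.le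
              _ = L ^ 11 * 4 := by ring
              _ ≤ L ^ 11 * (L / 4096) := by
                  apply mul_le_mul_of_nonneg_left _ (by positivity)
                  linarith
              _ = (L / 2) ^ 12 := by ring
  have h1 := abel_bound (fun n => (mu n : ℂ) * ee (n * ((a : ℝ) / q))) β N hbound
  refine h1.trans ?_
  have hpi := Real.pi_lt_d2
  have hpi0 := Real.pi_pos
  have h2 : (N : ℝ) * (2 * Real.pi * |β|) ≤ 6.3 * D := by
    calc (N : ℝ) * (2 * Real.pi * |β|) ≤ N * (2 * Real.pi * (D / N)) := by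
          apply mul_le_mul_of_nonneg_left _ hNr.le
          exact mul_le_mul_of_nonneg_left hβ (by positivity)
      _ = 2 * Real.pi * D := by field_simp
      _ ≤ 6.3 * D := by nlinarith
  have h3 : 1 + (N : ℝ) * (2 * Real.pi * |β|) ≤ 8 * D := by linarith
  calc (N : ℝ) / (D * L) * (1 + N * (2 * Real.pi * |β|)) ≤ N / (D * L) * (8 * D) :=
        mul_le_mul_of_nonneg_left h3 (by positivity)
    _ = 8 * N / L := by field_simp

set_option maxHeartbeats 2000000 in
/-- The Davenport-type bound from Siegel–Walfisz for `μ`. -/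
theorem _root_.Pool.Agent.H807R2.davenport_of (h : SWMu) : Davenport := by
  obtain ⟨N₁, hN₁⟩ := major h
  set C₁ : ℝ := (Real.log N₁) ^ (3 / 4 : ℝ) with hC₁
  have hC₁0 : 0 ≤ C₁ := by
    apply Real.rpow_nonneg
    rcases Nat.eq_zero_or_pos N₁ with h0 | h0
    · rw [h0]; simp
    · exact Real.log_nonneg (by exact_mod_cast h0)
  refine ⟨C₁ + 135828 + 8, by positivity, ?_⟩
  intro N hN16 α
  have hconv : ∑ n ∈ range N, ((ArithmeticFunction.moebius n : ℤ) : ℂ) *
      Complex.exp (2 * Real.pi * Complex.I * n * α) = SS N α := by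
    unfold SS
    refine sum_congr rfl fun n _ => ?_
    unfold mu ee
    push_cast
    congr 2
    ring
  rw [hconv]
  have hN0 : (0 : ℝ) < N := by
    have : 0 < N := by omega
    exact_mod_cast this
  have hlogN : 0 < Real.log N := Real.log_pos (by
    have : 1 < N := by omega
    exact_mod_cast this)
  have hrp : 0 < (Real.log N) ^ (3 / 4 : ℝ) := Real.rpow_pos_of_pos hlogN _
  rcases lt_or_ge N N₁ with hlt | hge
  · rw [le_div_iff₀ hrp]
    have h1 : (Real.log N) ^ (3 / 4 : ℝ) ≤ C₁ := by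
      apply Real.rpow_le_rpow hlogN.le _ (by norm_num)
      exact Real.log_le_log hN0 (by exact_mod_cast hlt.le)
    have h2 := SS_le N α
    calc ‖SS N α‖ * (Real.log N) ^ (3 / 4 : ℝ) ≤ N * C₁ :=
          mul_le_mul h2 h1 hrp.le hN0.le
      _ ≤ (C₁ + 135828 + 8) * N := by nlinarith
  obtain ⟨c1, c2, hmaj⟩ := hN₁ N hge
  set L : ℝ := Real.log N with hL
  have hL1 : 1 ≤ L := by linarith
  set D : ℕ := ⌈L ^ 5⌉₊ with hD
  have hDge : L ^ 5 ≤ D := Nat.le_ceil _
  have hL5 : 1 ≤ L ^ 5 := one_le_pow₀ hL1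
  have hDle : (D : ℝ) ≤ 2 * L ^ 5 := by
    have := Nat.ceil_lt_add_one (a := L ^ 5) (by positivity)
    have h2 : (D : ℝ) < L ^ 5 + 1 := this
    linarith
  have hD1r : (1 : ℝ) ≤ D := hL5.trans hDge
  have hD1 : 1 ≤ D := by exact_mod_cast hD1r
  have hDN : D ≤ N := by
    have h3 : (D : ℝ) ≤ N := by
      have h4 : √(N : ℝ) * √N = N := Real.mul_self_sqrt hN0.le
      have h5 : 1 ≤ √(N : ℝ) := by
        rw [Real.one_le_sqrt]
        have : 1 ≤ N := by omega
        exact_mod_cast this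
      have h6 : L ^ 5 ≤ L ^ 6 := pow_le_pow_right₀ hL1 (by norm_num)
      nlinarith
    exact_mod_cast h3
  set Q : ℕ := N / D with hQ
  have hQ1 : 0 < Q := Nat.div_pos hDN hD1
  obtain ⟨r, hr1, hr2⟩ := Real.exists_rat_abs_sub_le_and_den_le α hQ1
  set q : ℕ := r.den with hq
  have hq1 : 1 ≤ q := r.den_pos
  have hq0 : (0 : ℝ) < q := by exact_mod_cast hq1
  have hrq : ((r : ℚ) : ℝ) = (r.num : ℝ) / q := by
    rw [hq]; exact_mod_cast (Rat.num_div_den r).symm
  rw [hrq] at hr1
  have hcop : IsCoprime r.num (q : ℤ) := by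
    rw [Int.isCoprime_iff_gcd_eq_one]
    have := r.reduced
    rw [Int.gcd]
    simpa [hq] using this
  have hQ1r : (0 : ℝ) < (Q : ℝ) + 1 := by positivity
  have hqQ : (q : ℝ) ≤ Q := by exact_mod_cast hr2
  -- final comparison
  have hfinal : ∀ X : ℝ, X ≤ 135828 * N / L ^ (3 / 4 : ℝ) ∨ X ≤ 8 * N / L →
      X ≤ (C₁ + 135828 + 8) * N / L ^ (3 / 4 : ℝ) := by
    intro X hX
    rcases hX with hX | hX
    · refine hX.trans ?_
      apply div_le_div_of_nonneg_right _ hrp.le
      nlinarith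
    · refine hX.trans ?_
      have h7 : L ^ (3 / 4 : ℝ) ≤ L := by
        calc L ^ (3 / 4 : ℝ) ≤ L ^ (1 : ℝ) := Real.rpow_le_rpow_of_exponent_le hL1 (by norm_num)
          _ = L := Real.rpow_one L
      calc 8 * N / L ≤ 8 * N / L ^ (3 / 4 : ℝ) :=
            div_le_div_of_nonneg_left (by positivity) hrp h7
        _ ≤ _ := by
            apply div_le_div_of_nonneg_right _ hrp.le
            nlinarith
  apply hfinal
  rcases le_or_gt D q with hcase | hcase
  · left
    have hα : |α - (r.num : ℝ) / q| ≤ 1 / (q : ℝ) ^ 2 := by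
      refine hr1.trans ?_
      rw [sq]
      apply div_le_div_of_nonneg_left zero_le_one (by positivity)
      apply mul_le_mul_of_nonneg_right _ hq0.le
      linarith
    have hqN : q * D ≤ N := by
      calc q * D ≤ Q * D := Nat.mul_le_mul_right _ hr2
        _ ≤ N := Nat.div_mul_le_self _ _
    have h8 := minor hD1 hL1 hDge hcase hqN hcop hα
    refine h8.trans ?_
    have h9 : 1 + Real.log D ≤ 42 * L ^ (1 / 8 : ℝ) := by
      have e1 : Real.log D ≤ Real.log (2 * L ^ 5) := Real.log_le_log (by linarith) hDle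
      have e2 : Real.log (2 * L ^ 5) = Real.log 2 + 5 * Real.log L := by
        rw [Real.log_mul (by norm_num) (by positivity), Real.log_pow]; norm_num
      have e3 : Real.log L ≤ L ^ (1 / 8 : ℝ) / (1 / 8) :=
        Real.log_le_rpow_div (by linarith) (by norm_num)
      have e4 : 1 ≤ L ^ (1 / 8 : ℝ) := Real.one_le_rpow hL1 (by norm_num)
      have e5 := Real.log_two_lt_d9
      rw [e2] at e1
      have e6 : L ^ (1 / 8 : ℝ) / (1 / 8) = 8 * L ^ (1 / 8 : ℝ) := by ring
      rw [e6] at e3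
      linarith
    have hlogD : 0 ≤ Real.log (D : ℝ) := Real.log_nonneg hD1r
    have h10 : (1 + Real.log D) ^ 2 ≤ 1764 * L ^ (1 / 4 : ℝ) := by
      calc (1 + Real.log D) ^ 2 ≤ (42 * L ^ (1 / 8 : ℝ)) ^ 2 :=
            pow_le_pow_left₀ (by linarith) h9 2
        _ = 1764 * (L ^ (1 / 8 : ℝ) * L ^ (1 / 8 : ℝ)) := by ring
        _ = 1764 * L ^ (1 / 4 : ℝ) := by
            rw [← Real.rpow_add hlogN]; norm_num
    calc 77 * N * (1 + Real.log D) ^ 2 / L ≤ 77 * N * (1764 * L ^ (1 / 4 : ℝ)) / L := by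
          apply div_le_div_of_nonneg_right _ hlogN.le
          exact mul_le_mul_of_nonneg_left h10 (by positivity)
      _ = 135828 * N * (L ^ (1 / 4 : ℝ) / L) := by ring
      _ = 135828 * N / L ^ (3 / 4 : ℝ) := by
          have : L ^ (1 / 4 : ℝ) / L = 1 / L ^ (3 / 4 : ℝ) := by
            rw [div_eq_div_iff hlogN.ne' hrp.ne', ← Real.rpow_add hlogN]
            norm_num
          rw [this]; ring
  · right
    set β : ℝ := α - (r.num : ℝ) / q with hβ
    have hβ2 : |β| ≤ (D : ℝ) / N := by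
      refine hr1.trans ?_
      rw [div_le_div_iff₀ (by positivity) hN0]
      have e1 : (N : ℝ) ≤ D * (Q + 1) := by
        have := Nat.lt_mul_div_succ N hD1
        have e2 : N ≤ D * (Q + 1) := this.le
        exact_mod_cast e2
      have e3 : (1 : ℝ) ≤ q := by exact_mod_cast hq1
      calc 1 * (N : ℝ) = N := one_mul _
        _ ≤ D * (Q + 1) := e1
        _ ≤ D * (Q + 1) * q := le_mul_of_one_le_right (by positivity) e3
        _ = _ := by ring
    have hqD : (q : ℝ) ≤ D := by exact_mod_cast hcase.le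
    have h11 := hmaj q r.num D β hq1 hqD hD1r hDle hβ2
    refine le_trans (le_of_eq ?_) h11
    congr 1
    unfold SS
    refine sum_congr rfl fun n _ => ?_
    rw [mul_assoc, ← ee_add]
    congr 2
    rw [hβ]; ring

end Pool.Agent.H807R2.Dav
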