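import Mathlib

set_option autoImplicit false

open MeasureTheory Set Filter Topology Real

namespace Pool.Agent.H807R2.HillBessel

/-- there is a zero `j ∈ (0, π]` of the Bessel function `J₀` -/
lemma exists_zero : ∃ j : ℝ, 0 < j ∧ j ≤ π ∧ ∫ x in (0 : ℝ)..(π / 2), cos (j * cos x) = 0 := by
  have hcont : Continuous fun j : ℝ => ∫ x in (0 : ℝ)..(π / 2), cos (j * cos x) := by
    apply intervalIntegral.continuous_parametric_intervalIntegral_of_continuous'
    fun_prop
  have h0 : (fun j : ℝ => ∫ x in (0 : ℝ)..(π / 2), cos (j * cos x)) 0 = π / 2 := by simp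
  have hπ : (fun j : ℝ => ∫ x in (0 : ℝ)..(π / 2), cos (j * cos x)) π ≤ 0 := by
    have h1 : ∫ x in (0 : ℝ)..(π / 2), cos (π * cos x) ≤ ∫ x in (0 : ℝ)..(π / 2), (1 - 2 * cos x ^ 2) := by
      apply intervalIntegral.integral_mono_on (by positivity)
      · exact (Continuous.intervalIntegrable (by fun_prop) _ _)
      · exact (Continuous.intervalIntegrable (by fun_prop) _ _)
      · intro x hx
        have h2 : |π * cos x| ≤ π := by
          rw [abs_mul, abs_of_pos pi_pos]
          have := abs_cos_le_one x
          nlinarith [pi_pos]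
        have h3 := cos_le_one_sub_mul_cos_sq h2
        have h4 : 2 / π ^ 2 * (π * cos x) ^ 2 = 2 * cos x ^ 2 := by
          have := pi_pos.ne'
          field_simp
        rw [h4] at h3
        exact h3
    have h5 : ∫ x in (0 : ℝ)..(π / 2), (1 - 2 * cos x ^ 2) = 0 := by
      rw [intervalIntegral.integral_sub (by simp) (Continuous.intervalIntegrable (by fun_prop) _ _),
        intervalIntegral.integral_const_mul, integral_cos_sq]
      simp
      ring
    simpa [h5] using h1
  obtain ⟨j, hj, hj0⟩ := intermediate_value_Icc' (a := (0 : ℝ)) (b := π) pi_pos.le hcont.continuousOn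
    ⟨hπ, by have h1 := pi_pos; have h2 : (0 : ℝ) ≤ π / 2 := by positivity
            rw [← h0] at h2; exact h2⟩
  refine ⟨j, ?_, hj.2, hj0⟩
  rcases eq_or_lt_of_le hj.1 with h | h
  · exfalso
    rw [← h, h0] at hj0
    have := pi_pos
    linarith
  · exact h

section
variable (j : ℝ)

noncomputable def X (x : ℝ) : ℝ := ∫ t in (0 : ℝ)..x, cos (j * cos t)
noncomputable def Y (x : ℝ) : ℝ := ∫ t in (0 : ℝ)..x, sin (j * cos t)

lemma X_deriv (x : ℝ) : HasDerivAt (X j) (cos (j * cos x)) x := by
  have hc : Continuous fun t : ℝ => cos (j * cos t) := by fun_prop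
  exact intervalIntegral.integral_hasDerivAt_right (hc.intervalIntegrable _ _)
      (hc.stronglyMeasurableAtFilter _ _) hc.continuousAt

lemma Y_deriv (x : ℝ) : HasDerivAt (Y j) (sin (j * cos x)) x := by
  have hc : Continuous fun t : ℝ => sin (j * cos t) := by fun_prop
  exact intervalIntegral.integral_hasDerivAt_right (hc.intervalIntegrable _ _)
      (hc.stronglyMeasurableAtFilter _ _) hc.continuousAt

lemma X_cont : Continuous (X j) := continuous_iff_continuousAt.2 fun x => (X_deriv j x).continuousAt
lemma Y_cont : Continuous (Y j) := continuous_iff_continuousAt.2 fun x => (Y_deriv j x).continuousAt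

lemma X_zero : X j 0 = 0 := by simp [X]
lemma Y_zero : Y j 0 = 0 := by simp [Y]

/-- two functions with the same derivative and one common value are equal -/
lemma eq_of_deriv {f g f' : ℝ → ℝ} (hf : ∀ x, HasDerivAt f (f' x) x) (hg : ∀ x, HasDerivAt g (f' x) x)
    (x₀ : ℝ) (h0 : f x₀ = g x₀) : ∀ x, f x = g x := by
  intro x
  have h : ∀ x, HasDerivAt (fun x => f x - g x) 0 x := fun x => by
    simpa using (hf x).fun_sub (hg x)
  have hc := is_const_of_deriv_eq_zero (f := fun x => f x - g x) (fun x => (h x).differentiableAt)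
    (fun x => (h x).deriv) x x₀
  simp only [h0, sub_self] at hc
  linarith

variable {j} (hX : X j (π / 2) = 0)
include hX

lemma X_pi_sub (x : ℝ) : X j (π - x) = - X j x := by
  refine eq_of_deriv (f := fun x => X j (π - x)) (g := fun x => - X j x)
    (f' := fun x => - cos (j * cos x)) (fun x => ?_) (fun x => (X_deriv j x).fun_neg) (π / 2) ?_ x
  · have h1 := (X_deriv j (π - x)).scomp x ((hasDerivAt_id x).const_sub π)
    simpa [Function.comp_def] using h1
  · simp only [sub_half, hX, neg_zero]

lemma X_pi : X j π = 0 := by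
  have := X_pi_sub hX 0
  simpa [X_zero] using this

lemma X_add_pi (x : ℝ) : X j (x + π) = X j x := by
  refine eq_of_deriv (f := fun x => X j (x + π)) (g := fun x => X j x)
    (f' := fun x => cos (j * cos x)) (fun x => ?_) (fun x => (X_deriv j x)) 0 ?_ x
  · have h1 := (X_deriv j (x + π)).scomp x ((hasDerivAt_id x).add_const π)
    simpa [Function.comp_def] using h1
  · simp only [zero_add, X_pi hX, X_zero]

omit hX in
lemma Y_pi_sub (x : ℝ) : Y j (π - x) = Y j x := by
  refine eq_of_deriv (f := fun x => Y j (π - x)) (g := fun x => Y j x)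
    (f' := fun x => sin (j * cos x)) (fun x => ?_) (fun x => (Y_deriv j x)) (π / 2) ?_ x
  · have h1 := (Y_deriv j (π - x)).scomp x ((hasDerivAt_id x).const_sub π)
    simpa [Function.comp_def] using h1
  · simp only [sub_half]

omit hX in
lemma Y_pi : Y j π = 0 := by
  have := Y_pi_sub (j := j) 0
  simpa [Y_zero] using this

omit hX in
lemma Y_add_pi (x : ℝ) : Y j (x + π) = - Y j x := by
  refine eq_of_deriv (f := fun x => Y j (x + π)) (g := fun x => - Y j x)
    (f' := fun x => - sin (j * cos x)) (fun x => ?_) (fun x => (Y_deriv j x).fun_neg) 0 ?_ x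
  · have h1 := (Y_deriv j (x + π)).scomp x ((hasDerivAt_id x).add_const π)
    simpa [Function.comp_def] using h1
  · simp only [zero_add, Y_pi, Y_zero, neg_zero]

/-- the quantity `G = X Y Y'` -/
noncomputable def G (j : ℝ) (x : ℝ) : ℝ := X j x * Y j x * sin (j * cos x)

omit hX in
lemma G_cont : Continuous (G j) := by
  have h1 := X_cont j
  have h2 := Y_cont j
  unfold G
  fun_prop

lemma G_pi_sub (x : ℝ) : G j (π - x) = G j x := by
  unfold G
  rw [X_pi_sub hX, Y_pi_sub, cos_pi_sub, mul_neg j, sin_neg]; ring

lemma G_add_pi (x : ℝ) : G j (x + π) = G j x := by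
  unfold G
  rw [X_add_pi hX, Y_add_pi, cos_add_pi, mul_neg j, sin_neg]; ring

lemma intG : ∫ x in (0 : ℝ)..(2 * π), G j x = 4 * ∫ x in (0 : ℝ)..(π / 2), G j x := by
  have hi : ∀ a b : ℝ, IntervalIntegrable (G j) volume a b := fun a b => G_cont.intervalIntegrable a b
  have h1 : ∫ x in π..(2 * π), G j x = ∫ x in (0 : ℝ)..π, G j x := by
    have := intervalIntegral.integral_comp_add_right (a := 0) (b := π) (G j) π
    simp only [G_add_pi hX] at this
    rw [this]; congr 1 <;> ring
  have h2 : ∫ x in (π / 2)..π, G j x = ∫ x in (0 : ℝ)..(π / 2), G j x := by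
    have := intervalIntegral.integral_comp_sub_left (a := 0) (b := π / 2) (G j) π
    simp only [G_pi_sub hX] at this
    rw [this]; congr 1 <;> ring
  rw [← intervalIntegral.integral_add_adjacent_intervals (hi 0 π) (hi π (2 * π)), h1,
    ← intervalIntegral.integral_add_adjacent_intervals (hi 0 (π / 2)) (hi (π / 2) π), h2]
  ring

lemma G_neg (hj : 0 < j) (hjπ : j ≤ π) {x : ℝ} (hx : x ∈ Ioo 0 (π / 2)) : G j x < 0 := by
  have hcosmono : ∀ s t : ℝ, 0 ≤ s → s < t → t ≤ π / 2 → cos (j * cos s) < cos (j * cos t) := by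
    intro s t hs hst ht
    have h1 : cos t < cos s := cos_lt_cos_of_nonneg_of_le_pi_div_two hs ht hst
    have h2 : 0 ≤ cos t := cos_nonneg_of_mem_Icc ⟨by linarith [pi_pos], ht⟩
    apply cos_lt_cos_of_nonneg_of_le_pi (by positivity) _ (by nlinarith)
    have := cos_le_one s
    nlinarith
  have hsin : ∀ t : ℝ, 0 < t → t < π / 2 → 0 < sin (j * cos t) := by
    intro t ht0 ht
    have h2 : 0 < cos t := cos_pos_of_mem_Ioo ⟨by linarith [pi_pos], ht⟩
    have h3 : cos t < 1 := by
      have := cos_lt_cos_of_nonneg_of_le_pi_div_two (le_refl (0 : ℝ)) ht.le ht0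
      simpa using this
    apply sin_pos_of_pos_of_lt_pi (by positivity)
    nlinarith
  have hY : 0 < Y j x := by
    unfold Y
    apply intervalIntegral.intervalIntegral_pos_of_pos_on
    · exact (Continuous.intervalIntegrable (by fun_prop) _ _)
    · intro t ht
      exact hsin t ht.1 (ht.2.trans hx.2)
    · exact hx.1
  have hXn : X j x < 0 := by
    rcases le_or_gt (cos (j * cos x)) 0 with h | h
    · have : 0 < ∫ t in (0 : ℝ)..x, - cos (j * cos t) := by
        apply intervalIntegral.intervalIntegral_pos_of_pos_on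
        · exact (Continuous.intervalIntegrable (by fun_prop) _ _)
        · intro t ht
          have := hcosmono t x ht.1.le ht.2 hx.2.le
          linarith
        · exact hx.1
      rw [intervalIntegral.integral_neg] at this
      unfold X
      linarith
    · have : 0 < ∫ t in x..(π / 2), cos (j * cos t) := by
        apply intervalIntegral.intervalIntegral_pos_of_pos_on
        · exact (Continuous.intervalIntegrable (by fun_prop) _ _)
        · intro t ht
          have := hcosmono x t hx.1.le ht.1 ht.2.le
          linarith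
        · exact hx.2
      have h2 := intervalIntegral.integral_add_adjacent_intervals (μ := volume) (a := 0) (b := x) (c := π / 2)
        (f := fun t => cos (j * cos t))
        (Continuous.intervalIntegrable (by fun_prop) _ _) (Continuous.intervalIntegrable (by fun_prop) _ _)
      have h3 : ∫ t in (0 : ℝ)..(π / 2), cos (j * cos t) = 0 := hX
      unfold X
      linarith
  unfold G
  have := mul_pos hY (hsin x hx.1 hx.2)
  nlinarith

lemma intG_neg (hj : 0 < j) (hjπ : j ≤ π) : ∫ x in (0 : ℝ)..(2 * π), G j x < 0 := by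
  rw [intG hX]
  have : 0 < ∫ x in (0 : ℝ)..(π / 2), - G j x := by
    apply intervalIntegral.intervalIntegral_pos_of_pos_on
    · exact (G_cont.neg.intervalIntegrable _ _)
    · intro x hx
      have := G_neg hX hj hjπ hx
      linarith
    · positivity
  rw [intervalIntegral.integral_neg] at this
  linarith

lemma X_two_pi : X j (2 * π) = 0 := by
  have := X_add_pi hX π
  rw [X_pi hX, ← two_mul] at this
  exact this

omit hX in
lemma Y_two_pi : Y j (2 * π) = 0 := by
  have := Y_add_pi (j := j) π
  rw [Y_pi, ← two_mul, neg_zero] at this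
  exact this

lemma X_per (x : ℝ) : X j (x + 2 * π) = X j x := by
  rw [two_mul, ← add_assoc, X_add_pi hX, X_add_pi hX]

omit hX in
lemma Y_per (x : ℝ) : Y j (x + 2 * π) = Y j x := by
  rw [two_mul, ← add_assoc, Y_add_pi, Y_add_pi, neg_neg]

omit hX in
lemma X_neg (x : ℝ) : X j (-x) = - X j x := by
  refine eq_of_deriv (f := fun x => X j (-x)) (g := fun x => - X j x)
    (f' := fun x => - cos (j * cos x)) (fun x => ?_) (fun x => (X_deriv j x).fun_neg) 0 ?_ x
  · have h1 := (X_deriv j (-x)).scomp x ((hasDerivAt_id x).neg)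
    simpa [Function.comp_def] using h1
  · simp [X_zero]

omit hX in
lemma Y_neg (x : ℝ) : Y j (-x) = - Y j x := by
  refine eq_of_deriv (f := fun x => Y j (-x)) (g := fun x => - Y j x)
    (f' := fun x => - sin (j * cos x)) (fun x => ?_) (fun x => (Y_deriv j x).fun_neg) 0 ?_ x
  · have h1 := (Y_deriv j (-x)).scomp x ((hasDerivAt_id x).neg)
    simpa [Function.comp_def] using h1
  · simp [Y_zero]

end

end Pool.Agent.H807R2.HillBessel
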