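import Mathlib

set_option autoImplicit false

open MeasureTheory Set Filter Topology

namespace Pool.Agent.H807R2.Volterra

/-- power series with coefficients of factorial decay -/
def Ent (f : ℕ → ℂ) : Prop := ∃ V ρ : ℝ, 0 ≤ V ∧ 0 ≤ ρ ∧ ∀ n, ‖f n‖ ≤ V * (ρ ^ n / (n.factorial : ℝ))

noncomputable def S (f : ℕ → ℂ) (z : ℂ) : ℂ := ∑' n, z ^ n * f n

lemma summable_bound (V ρ r : ℝ) : Summable fun n : ℕ => r ^ n * (V * (ρ ^ n / (n.factorial : ℝ))) := by
  have := (Real.summable_pow_div_factorial (r * ρ)).mul_left V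
  refine this.congr fun n => ?_
  rw [mul_pow]; ring

lemma Ent.summable {f : ℕ → ℂ} (hf : Ent f) (z : ℂ) : Summable fun n => z ^ n * f n := by
  obtain ⟨V, ρ, hV, hρ, h⟩ := hf
  refine Summable.of_norm_bounded (summable_bound V ρ ‖z‖) fun n => ?_
  rw [norm_mul, norm_pow]
  exact mul_le_mul_of_nonneg_left (h n) (by positivity)

lemma Ent.differentiable {f : ℕ → ℂ} (hf : Ent f) : Differentiable ℂ (S f) := by
  obtain ⟨V, ρ, hV, hρ, h⟩ := hf
  intro z
  have h1 : DifferentiableOn ℂ (fun w => ∑' n, w ^ n * f n) (Metric.ball 0 (‖z‖ + 1)) := by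
    refine Complex.differentiableOn_tsum_of_summable_norm (summable_bound V ρ (‖z‖ + 1)) ?_
      Metric.isOpen_ball ?_
    · intro n
      fun_prop
    · intro n w hw
      rw [norm_mul, norm_pow]
      have : ‖w‖ ≤ ‖z‖ + 1 := by
        have := mem_ball_zero_iff.1 hw
        exact this.le
      exact mul_le_mul (pow_le_pow_left₀ (norm_nonneg _) this n) (h n) (norm_nonneg _) (by positivity)
  exact h1.differentiableAt (Metric.isOpen_ball.mem_nhds (by simp))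

lemma Ent.analyticAt {f : ℕ → ℂ} (hf : Ent f) (z : ℂ) : AnalyticAt ℂ (S f) z :=
  hf.differentiable.analyticAt z

lemma Ent.shift {f : ℕ → ℂ} (hf : Ent f) (k : ℕ) : Ent fun n => f (n + k) := by
  obtain ⟨V, ρ, hV, hρ, h⟩ := hf
  refine ⟨V * ρ ^ k, ρ, by positivity, hρ, fun n => (h (n + k)).trans ?_⟩
  have h1 : (n.factorial : ℝ) ≤ ((n + k).factorial : ℝ) := by
    exact_mod_cast Nat.factorial_le (Nat.le_add_right n k)
  have h2 : (0 : ℝ) < n.factorial := by exact_mod_cast Nat.factorial_pos n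
  rw [pow_add]
  calc V * (ρ ^ n * ρ ^ k / ((n + k).factorial : ℝ)) ≤ V * (ρ ^ n * ρ ^ k / (n.factorial : ℝ)) := by
        gcongr
    _ = V * ρ ^ k * (ρ ^ n / (n.factorial : ℝ)) := by ring

lemma Ent.add {f g : ℕ → ℂ} (hf : Ent f) (hg : Ent g) : Ent fun n => f n + g n := by
  obtain ⟨V, ρ, hV, hρ, h⟩ := hf
  obtain ⟨V', ρ', hV', hρ', h'⟩ := hg
  refine ⟨V + V', max ρ ρ', by positivity, le_max_of_le_left hρ, fun n => ?_⟩
  refine (norm_add_le _ _).trans ?_
  have h1 : V * (ρ ^ n / (n.factorial : ℝ)) ≤ V * ((max ρ ρ') ^ n / (n.factorial : ℝ)) := by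
    gcongr; exact le_max_left _ _
  have h2 : V' * (ρ' ^ n / (n.factorial : ℝ)) ≤ V' * ((max ρ ρ') ^ n / (n.factorial : ℝ)) := by
    gcongr; exact le_max_right _ _
  calc ‖f n‖ + ‖g n‖ ≤ _ := add_le_add ((h n).trans h1) ((h' n).trans h2)
    _ = _ := by ring

lemma Ent.const_mul {f : ℕ → ℂ} (hf : Ent f) (c : ℂ) : Ent fun n => c * f n := by
  obtain ⟨V, ρ, hV, hρ, h⟩ := hf
  refine ⟨‖c‖ * V, ρ, by positivity, hρ, fun n => ?_⟩
  rw [norm_mul, mul_assoc]
  exact mul_le_mul_of_nonneg_left (h n) (norm_nonneg _)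

lemma S_add {f g : ℕ → ℂ} (hf : Ent f) (hg : Ent g) (z : ℂ) :
    S (fun n => f n + g n) z = S f z + S g z := by
  unfold S
  rw [← (hf.summable z).tsum_add (hg.summable z)]
  congr 1; ext n; ring

lemma S_const_mul {f : ℕ → ℂ} (c : ℂ) (z : ℂ) :
    S (fun n => c * f n) z = c * S f z := by
  unfold S
  rw [← tsum_mul_left]
  congr 1; ext n; ring

lemma S_succ {f : ℕ → ℂ} (hf : Ent f) (z : ℂ) :
    S f z = f 0 + z * S (fun n => f (n + 1)) z := by
  unfold S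
  rw [(hf.summable z).tsum_eq_zero_add, ← tsum_mul_left]
  congr 1
  · simp
  · congr 1; ext n; ring

lemma S_zero (f : ℕ → ℂ) : S f 0 = f 0 := by
  unfold S
  rw [tsum_eq_single 0]
  · simp
  · intro n hn
    simp [hn]

lemma hasDerivAt_S_zero {f : ℕ → ℂ} (hf : Ent f) : HasDerivAt (S f) (f 1) 0 := by
  have h1 : HasDerivAt (fun z : ℂ => f 0 + z * S (fun n => f (n + 1)) z)
      (1 * S (fun n => f (n + 1)) 0 + 0 * deriv (S fun n => f (n + 1)) 0) 0 := by
    have h2 := (hasDerivAt_id (0 : ℂ)).mul ((hf.shift 1).differentiable 0).hasDerivAt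
    exact h2.const_add (f 0)
  have h3 : S f = fun z : ℂ => f 0 + z * S (fun n => f (n + 1)) z := by
    funext z; exact S_succ hf z
  rw [h3]
  simpa [S_zero] using h1

section
variable (y1 y2 : ℝ → ℂ)

/-- coefficients of the expansion in powers of the spectral parameter -/
noncomputable def ab (x₀ : ℝ) (α β : ℂ) : ℕ → ℝ → ℂ × ℂ
  | 0 => fun _ => (α, β)
  | n + 1 => fun x => (∫ t in x₀..x, y2 t * (y1 t * (ab x₀ α β n t).1 + y2 t * (ab x₀ α β n t).2),
      -∫ t in x₀..x, y1 t * (y1 t * (ab x₀ α β n t).1 + y2 t * (ab x₀ α β n t).2))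

variable {y1 y2}

lemma ab_cont (h1 : Continuous y1) (h2 : Continuous y2) (x₀ : ℝ) (α β : ℂ) (n : ℕ) :
    Continuous (ab y1 y2 x₀ α β n) := by
  induction n with
  | zero => exact continuous_const
  | succ n ih =>
    have ha : Continuous fun t => (ab y1 y2 x₀ α β n t).1 := ih.fst
    have hb : Continuous fun t => (ab y1 y2 x₀ α β n t).2 := ih.snd
    refine Continuous.prodMk ?_ ?_
    · exact intervalIntegral.continuous_primitive
        (fun a b => (Continuous.intervalIntegrable (by fun_prop) a b)) x₀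
    · exact (intervalIntegral.continuous_primitive
        (fun a b => (Continuous.intervalIntegrable (by fun_prop) a b)) x₀).neg

lemma ab_deriv (h1 : Continuous y1) (h2 : Continuous y2) (x₀ : ℝ) (α β : ℂ) (n : ℕ) (x : ℝ) :
    HasDerivAt (fun x => (ab y1 y2 x₀ α β (n + 1) x).1)
      (y2 x * (y1 x * (ab y1 y2 x₀ α β n x).1 + y2 x * (ab y1 y2 x₀ α β n x).2)) x ∧
    HasDerivAt (fun x => (ab y1 y2 x₀ α β (n + 1) x).2)
      (-(y1 x * (y1 x * (ab y1 y2 x₀ α β n x).1 + y2 x * (ab y1 y2 x₀ α β n x).2))) x := by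
  have ha : Continuous fun t => (ab y1 y2 x₀ α β n t).1 := (ab_cont h1 h2 x₀ α β n).fst
  have hb : Continuous fun t => (ab y1 y2 x₀ α β n t).2 := (ab_cont h1 h2 x₀ α β n).snd
  have hc1 : Continuous fun x => (y2 x * (y1 x * (ab y1 y2 x₀ α β n x).1 + y2 x * (ab y1 y2 x₀ α β n x).2)) := by
    fun_prop
  have hc2 : Continuous fun x => (y1 x * (y1 x * (ab y1 y2 x₀ α β n x).1 + y2 x * (ab y1 y2 x₀ α β n x).2)) := by
    fun_prop
  exact ⟨intervalIntegral.integral_hasDerivAt_right (hc1.intervalIntegrable _ _)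
      (hc1.stronglyMeasurableAtFilter _ _) hc1.continuousAt,
    (intervalIntegral.integral_hasDerivAt_right (hc2.intervalIntegrable _ _)
      (hc2.stronglyMeasurableAtFilter _ _) hc2.continuousAt).fun_neg⟩

set_option linter.unusedVariables false in
lemma ab_bound (h1 : Continuous y1) (h2 : Continuous y2) {C : ℝ} (hC : 0 ≤ C)
    (b1 : ∀ x, ‖y1 x‖ ≤ C) (b2 : ∀ x, ‖y2 x‖ ≤ C) (x₀ : ℝ) (α β : ℂ) (n : ℕ) (x : ℝ) :
    ‖(ab y1 y2 x₀ α β n x).1‖ + ‖(ab y1 y2 x₀ α β n x).2‖ ≤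
      (‖α‖ + ‖β‖) * ((2 * C ^ 2 * |x - x₀|) ^ n / (n.factorial : ℝ)) := by
  induction n generalizing x with
  | zero => simp [ab]
  | succ n ih =>
    set V := ‖α‖ + ‖β‖ with hV
    have hV0 : 0 ≤ V := by positivity
    set K := 2 * C ^ 2 with hK
    have hK0 : 0 ≤ K := by positivity
    have key : ∀ (y : ℝ → ℂ), (∀ x, ‖y x‖ ≤ C) →
        ‖∫ t in x₀..x, y t * (y1 t * (ab y1 y2 x₀ α β n t).1 + y2 t * (ab y1 y2 x₀ α β n t).2)‖ ≤
          C ^ 2 * (V * (K ^ n / (n.factorial : ℝ) * (|x - x₀| ^ (n + 1) / (n + 1)))) := by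
      intro y hy
      rw [intervalIntegral.norm_intervalIntegral_eq]
      have hle : ∀ t, ‖y t * (y1 t * (ab y1 y2 x₀ α β n t).1 + y2 t * (ab y1 y2 x₀ α β n t).2)‖ ≤
          C ^ 2 * (V * (K ^ n / (n.factorial : ℝ))) * |t - x₀| ^ n := by
        intro t
        have e1 : ‖y1 t * (ab y1 y2 x₀ α β n t).1 + y2 t * (ab y1 y2 x₀ α β n t).2‖ ≤
            C * (‖(ab y1 y2 x₀ α β n t).1‖ + ‖(ab y1 y2 x₀ α β n t).2‖) := by
          refine (norm_add_le _ _).trans ?_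
          rw [norm_mul, norm_mul, mul_add]
          exact add_le_add (mul_le_mul_of_nonneg_right (b1 t) (norm_nonneg _))
            (mul_le_mul_of_nonneg_right (b2 t) (norm_nonneg _))
        have e2 := ih t
        rw [norm_mul]
        calc ‖y t‖ * _ ≤ C * (C * (V * ((K * |t - x₀|) ^ n / (n.factorial : ℝ)))) := by
              refine mul_le_mul (hy t) (e1.trans (mul_le_mul_of_nonneg_left e2 hC)) (norm_nonneg _) hC
          _ = _ := by rw [mul_pow]; ring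
      refine (norm_integral_le_of_norm_le (g := fun t => C ^ 2 * (V * (K ^ n / (n.factorial : ℝ))) * |t - x₀| ^ n)
        ?_ ?_).trans ?_
      · have : Continuous fun t : ℝ => C ^ 2 * (V * (K ^ n / (n.factorial : ℝ))) * |t - x₀| ^ n := by fun_prop
        exact (this.intervalIntegrable x₀ x).def'
      · exact Filter.Eventually.of_forall hle
      · rw [integral_const_mul, integral_pow_abs_sub_uIoc]
        apply le_of_eq; ring
    have k1 := key y2 b2
    have k2 := key y1 b1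
    simp only [ab, norm_neg]
    refine (add_le_add k1 k2).trans (le_of_eq ?_)
    rw [Nat.factorial_succ]
    push_cast
    have : (n.factorial : ℝ) ≠ 0 := by positivity
    have : ((n : ℝ) + 1) ≠ 0 := by positivity
    field_simp
    rw [hK]; ring

/-- the solution of `A' = z y2 y, B' = - z y1 y, y = y1 A + y2 B` -/
noncomputable def AA (y1 y2 : ℝ → ℂ) (x₀ : ℝ) (α β : ℂ) (z : ℂ) (x : ℝ) : ℂ :=
  S (fun n => (ab y1 y2 x₀ α β n x).1) z

noncomputable def BB (y1 y2 : ℝ → ℂ) (x₀ : ℝ) (α β : ℂ) (z : ℂ) (x : ℝ) : ℂ :=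
  S (fun n => (ab y1 y2 x₀ α β n x).2) z

lemma ent1 (h1 : Continuous y1) (h2 : Continuous y2) {C : ℝ} (hC : 0 ≤ C)
    (b1 : ∀ x, ‖y1 x‖ ≤ C) (b2 : ∀ x, ‖y2 x‖ ≤ C) (x₀ : ℝ) (α β : ℂ) (x : ℝ) :
    Ent (fun n => (ab y1 y2 x₀ α β n x).1) :=
  ⟨‖α‖ + ‖β‖, 2 * C ^ 2 * |x - x₀|, by positivity, by positivity, fun n =>
    (le_add_of_nonneg_right (norm_nonneg _)).trans (ab_bound h1 h2 hC b1 b2 x₀ α β n x)⟩

lemma ent2 (h1 : Continuous y1) (h2 : Continuous y2) {C : ℝ} (hC : 0 ≤ C)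
    (b1 : ∀ x, ‖y1 x‖ ≤ C) (b2 : ∀ x, ‖y2 x‖ ≤ C) (x₀ : ℝ) (α β : ℂ) (x : ℝ) :
    Ent (fun n => (ab y1 y2 x₀ α β n x).2) :=
  ⟨‖α‖ + ‖β‖, 2 * C ^ 2 * |x - x₀|, by positivity, by positivity, fun n =>
    (le_add_of_nonneg_left (norm_nonneg _)).trans (ab_bound h1 h2 hC b1 b2 x₀ α β n x)⟩

lemma deriv_aux (h1 : Continuous y1) (h2 : Continuous y2) {C : ℝ} (hC : 0 ≤ C)
    (b1 : ∀ x, ‖y1 x‖ ≤ C) (b2 : ∀ x, ‖y2 x‖ ≤ C) (x₀ : ℝ) (α β : ℂ) (z : ℂ) (x : ℝ)
    (y : ℝ → ℂ) (hy : ∀ x, ‖y x‖ ≤ C) (g : ℕ → ℝ → ℂ) (γ : ℂ) (hg0 : ∀ x, g 0 x = γ)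
    (hgs : ∀ n x, HasDerivAt (g (n + 1))
      (y x * (y1 x * (ab y1 y2 x₀ α β n x).1 + y2 x * (ab y1 y2 x₀ α β n x).2)) x)
    (hg : ∀ x, Ent fun n => g n x) :
    HasDerivAt (fun x => S (fun n => g n x) z)
      (z * (y x * (y1 x * AA y1 y2 x₀ α β z x + y2 x * BB y1 y2 x₀ α β z x))) x := by
  set V := ‖α‖ + ‖β‖ with hV
  have hV0 : 0 ≤ V := by positivity
  set R := |x - x₀| + 1 with hR
  have hR0 : 0 ≤ R := by positivity
  set G' : ℕ → ℝ → ℂ := fun n t => match n with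
    | 0 => 0
    | n + 1 => z ^ (n + 1) * (y t * (y1 t * (ab y1 y2 x₀ α β n t).1 + y2 t * (ab y1 y2 x₀ α β n t).2))
    with hG'
  set u : ℕ → ℝ := fun n => match n with
    | 0 => 0
    | n + 1 => ‖z‖ ^ (n + 1) * (C ^ 2 * (V * ((2 * C ^ 2 * R) ^ n / (n.factorial : ℝ)))) with hu
  have hbd : ∀ n t, |t - x₀| < R → ‖y t * (y1 t * (ab y1 y2 x₀ α β n t).1 + y2 t * (ab y1 y2 x₀ α β n t).2)‖ ≤
      C ^ 2 * (V * ((2 * C ^ 2 * R) ^ n / (n.factorial : ℝ))) := by
    intro n t ht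
    have e1 : ‖y1 t * (ab y1 y2 x₀ α β n t).1 + y2 t * (ab y1 y2 x₀ α β n t).2‖ ≤
        C * (‖(ab y1 y2 x₀ α β n t).1‖ + ‖(ab y1 y2 x₀ α β n t).2‖) := by
      refine (norm_add_le _ _).trans ?_
      rw [norm_mul, norm_mul, mul_add]
      exact add_le_add (mul_le_mul_of_nonneg_right (b1 t) (norm_nonneg _))
        (mul_le_mul_of_nonneg_right (b2 t) (norm_nonneg _))
    have e2 := ab_bound h1 h2 hC b1 b2 x₀ α β n t
    have e3 : V * ((2 * C ^ 2 * |t - x₀|) ^ n / (n.factorial : ℝ)) ≤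
        V * ((2 * C ^ 2 * R) ^ n / (n.factorial : ℝ)) := by
      gcongr
    rw [norm_mul]
    calc ‖y t‖ * _ ≤ C * (C * (V * ((2 * C ^ 2 * R) ^ n / (n.factorial : ℝ)))) :=
          mul_le_mul (hy t) (e1.trans (mul_le_mul_of_nonneg_left (e2.trans e3) hC)) (norm_nonneg _) hC
      _ = _ := by ring
  have hus : Summable u := by
    rw [← summable_nat_add_iff 1]
    have := (summable_bound (C ^ 2 * V) (2 * C ^ 2 * R) ‖z‖).mul_left ‖z‖
    refine this.congr fun n => ?_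
    simp only [hu]
    ring
  have key := hasDerivAt_tsum_of_isPreconnected (𝕜 := ℝ) (F := ℂ) (u := u)
    (g := fun n t => z ^ n * g n t) (g' := G') (t := Metric.ball x₀ R) (y₀ := x) (y := x) hus
    Metric.isOpen_ball (convex_ball x₀ R).isPreconnected ?_ ?_ ?_ ?_ ?_
  · have e : (∑' n, G' n x) = z * (y x * (y1 x * AA y1 y2 x₀ α β z x + y2 x * BB y1 y2 x₀ α β z x)) := by
      have hGs : Summable fun n => G' n x := by
        refine Summable.of_norm_bounded hus fun n => ?_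
        cases n with
        | zero => simp [hG', hu]
        | succ n =>
          simp only [hG', hu, norm_mul, norm_pow]
          rw [← norm_mul]
          refine mul_le_mul_of_nonneg_left (hbd n x ?_) (by positivity)
          rw [hR]; linarith
      rw [hGs.tsum_eq_zero_add]
      unfold AA BB S
      have e1 := (ent1 h1 h2 hC b1 b2 x₀ α β x).summable z
      have e2 := (ent2 h1 h2 hC b1 b2 x₀ α β x).summable z
      rw [← tsum_mul_left, ← tsum_mul_left, ← (e1.mul_left _).tsum_add (e2.mul_left _),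
        ← tsum_mul_left, ← tsum_mul_left]
      simp only [hG', zero_add]
      congr 1; ext n; ring
    rw [e] at key
    exact key
  · intro n t ht
    cases n with
    | zero =>
      have : (fun t => z ^ 0 * g 0 t) = fun _ => γ := by
        funext t; simp [hg0]
      rw [this]
      exact hasDerivAt_const _ _
    | succ n =>
      exact (hgs n t).const_mul _
  · intro n t ht
    cases n with
    | zero => simp [hG', hu]
    | succ n =>
      simp only [hG', hu]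
      rw [norm_mul, norm_pow]
      refine mul_le_mul_of_nonneg_left (hbd n t ?_) (by positivity)
      rw [Metric.mem_ball, Real.dist_eq] at ht
      exact ht
  · rw [Metric.mem_ball, Real.dist_eq, hR]; linarith
  · exact (hg x).summable z
  · rw [Metric.mem_ball, Real.dist_eq, hR]; linarith

lemma AA_deriv (h1 : Continuous y1) (h2 : Continuous y2) {C : ℝ} (hC : 0 ≤ C)
    (b1 : ∀ x, ‖y1 x‖ ≤ C) (b2 : ∀ x, ‖y2 x‖ ≤ C) (x₀ : ℝ) (α β : ℂ) (z : ℂ) (x : ℝ) :
    HasDerivAt (AA y1 y2 x₀ α β z)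
      (z * (y2 x * (y1 x * AA y1 y2 x₀ α β z x + y2 x * BB y1 y2 x₀ α β z x))) x :=
  deriv_aux h1 h2 hC b1 b2 x₀ α β z x y2 b2 (fun n x => (ab y1 y2 x₀ α β n x).1) α (fun _ => rfl)
    (fun n x => (ab_deriv h1 h2 x₀ α β n x).1) (fun x => ent1 h1 h2 hC b1 b2 x₀ α β x)

lemma BB_deriv (h1 : Continuous y1) (h2 : Continuous y2) {C : ℝ} (hC : 0 ≤ C)
    (b1 : ∀ x, ‖y1 x‖ ≤ C) (b2 : ∀ x, ‖y2 x‖ ≤ C) (x₀ : ℝ) (α β : ℂ) (z : ℂ) (x : ℝ) :
    HasDerivAt (BB y1 y2 x₀ α β z)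
      (-(z * (y1 x * (y1 x * AA y1 y2 x₀ α β z x + y2 x * BB y1 y2 x₀ α β z x)))) x := by
  have hng : ∀ x, Ent fun n => -(ab y1 y2 x₀ α β n x).2 := by
    intro x
    have := (ent2 h1 h2 hC b1 b2 x₀ α β x).const_mul (-1)
    simpa using this
  have h := deriv_aux h1 h2 hC b1 b2 x₀ α β z x y1 b1 (fun n x => -(ab y1 y2 x₀ α β n x).2) (-β)
    (fun _ => rfl) (fun n x => by simpa using (ab_deriv h1 h2 x₀ α β n x).2.fun_neg) hng
  have e : BB y1 y2 x₀ α β z = fun x => -(S (fun n => -(ab y1 y2 x₀ α β n x).2) z) := by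
    funext x
    unfold BB
    have := S_const_mul (f := fun n => (ab y1 y2 x₀ α β n x).2) (-1) z
    simp only [neg_mul, one_mul] at this
    rw [this, neg_neg]
  rw [e]
  simpa [e] using h.fun_neg

lemma AA_init (x₀ : ℝ) (α β : ℂ) (z : ℂ) : AA y1 y2 x₀ α β z x₀ = α := by
  unfold AA S
  rw [tsum_eq_single 0]
  · simp [ab]
  · intro n hn
    obtain ⟨m, rfl⟩ := Nat.exists_eq_succ_of_ne_zero hn
    simp [ab]

lemma BB_init (x₀ : ℝ) (α β : ℂ) (z : ℂ) : BB y1 y2 x₀ α β z x₀ = β := by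
  unfold BB S
  rw [tsum_eq_single 0]
  · simp [ab]
  · intro n hn
    obtain ⟨m, rfl⟩ := Nat.exists_eq_succ_of_ne_zero hn
    simp [ab]

end

end Pool.Agent.H807R2.Volterra
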