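import Mathlib
import Pool.Agent.H807R2.Volterra
import Pool.Agent.H807R2.HillBessel

set_option autoImplicit false

open MeasureTheory Set Filter Topology Complex

namespace Pool.Agent.H807R2.HillSol

open Pool.Agent.H807R2.Volterra Pool.Agent.H807R2.HillBessel

section
variable (τ : ℝ)

noncomputable def y1 (x : ℝ) : ℂ := cexp (I * (τ * Real.cos x : ℝ))
noncomputable def e (x : ℝ) : ℂ := cexp (-(I * (τ * Real.cos x : ℝ)))
noncomputable def dy1 (x : ℝ) : ℂ := -(I * (τ * Real.sin x : ℝ)) * y1 τ x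
noncomputable def W (x : ℝ) : ℂ := (X (2 * τ) x : ℂ) - I * (Y (2 * τ) x : ℂ)
noncomputable def y2 (x : ℝ) : ℂ := y1 τ x * W τ x
noncomputable def dy2 (x : ℝ) : ℂ := dy1 τ x * W τ x + e τ x
noncomputable def q (x : ℝ) : ℂ := -(I * (τ * Real.cos x : ℝ)) - ((τ * Real.sin x : ℝ) : ℂ) ^ 2

lemma y1_e (x : ℝ) : y1 τ x * e τ x = 1 := by
  unfold y1 e
  rw [← Complex.exp_add, add_neg_cancel, Complex.exp_zero]

lemma y1_deriv (x : ℝ) : HasDerivAt (y1 τ) (dy1 τ x) x := by
  have h1 : HasDerivAt (fun x : ℝ => ((τ * Real.cos x : ℝ) : ℂ)) ((τ * (-Real.sin x) : ℝ) : ℂ) x :=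
    ((Real.hasDerivAt_cos x).const_mul τ).ofReal_comp
  have h2 := (h1.const_mul I).cexp
  unfold y1 dy1
  refine h2.congr_deriv ?_
  unfold y1
  push_cast; ring

lemma e_deriv (x : ℝ) : HasDerivAt (e τ) ((I * (τ * Real.sin x : ℝ)) * e τ x) x := by
  have h1 : HasDerivAt (fun x : ℝ => ((τ * Real.cos x : ℝ) : ℂ)) ((τ * (-Real.sin x) : ℝ) : ℂ) x :=
    ((Real.hasDerivAt_cos x).const_mul τ).ofReal_comp
  have h2 := ((h1.const_mul I).fun_neg).cexp
  unfold e
  refine h2.congr_deriv ?_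
  push_cast; ring

lemma dy1_deriv (x : ℝ) : HasDerivAt (dy1 τ) (q τ x * y1 τ x) x := by
  have h1 : HasDerivAt (fun x : ℝ => ((τ * Real.sin x : ℝ) : ℂ)) ((τ * (Real.cos x) : ℝ) : ℂ) x :=
    ((Real.hasDerivAt_sin x).const_mul τ).ofReal_comp
  have h2 := ((h1.const_mul I).fun_neg).fun_mul (y1_deriv τ x)
  unfold dy1 at h2 ⊢
  refine h2.congr_deriv ?_
  unfold q
  push_cast
  ring_nf
  rw [I_sq]; ring

lemma W_deriv (x : ℝ) : HasDerivAt (W τ) (e τ x ^ 2) x := by
  have h1 := (X_deriv (2 * τ) x).ofReal_comp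
  have h2 := (Y_deriv (2 * τ) x).ofReal_comp
  have h3 := h1.fun_sub (h2.const_mul I)
  unfold W
  refine h3.congr_deriv ?_
  unfold e
  rw [← Complex.exp_nat_mul]
  have h4 : ((2 : ℕ) : ℂ) * (-(I * (τ * Real.cos x : ℝ))) = ((-(2 * τ * Real.cos x) : ℝ) : ℂ) * I := by
    push_cast; ring
  rw [h4, Complex.exp_mul_I, ← Complex.ofReal_cos, ← Complex.ofReal_sin, Real.cos_neg, Real.sin_neg]
  push_cast; ring

lemma y2_deriv (x : ℝ) : HasDerivAt (y2 τ) (dy2 τ x) x := by
  have h := (y1_deriv τ x).fun_mul (W_deriv τ x)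
  unfold y2 dy2
  refine h.congr_deriv ?_
  rw [pow_two, ← mul_assoc, y1_e, one_mul]

lemma dy2_deriv (x : ℝ) : HasDerivAt (dy2 τ) (q τ x * y2 τ x) x := by
  have h := ((dy1_deriv τ x).fun_mul (W_deriv τ x)).fun_add (e_deriv τ x)
  unfold dy2
  refine h.congr_deriv ?_
  unfold y2 dy1
  have := y1_e τ x
  linear_combination -(I * (τ * Real.sin x : ℝ)) * e τ x * this

lemma wron (x : ℝ) : y1 τ x * dy2 τ x - dy1 τ x * y2 τ x = 1 := by
  unfold dy2 y2
  have := y1_e τ x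
  linear_combination this

lemma y1_cont : Continuous (y1 τ) := continuous_iff_continuousAt.2 fun x => (y1_deriv τ x).continuousAt
lemma y2_cont : Continuous (y2 τ) := continuous_iff_continuousAt.2 fun x => (y2_deriv τ x).continuousAt
lemma dy1_cont : Continuous (dy1 τ) := continuous_iff_continuousAt.2 fun x => (dy1_deriv τ x).continuousAt
lemma dy2_cont : Continuous (dy2 τ) := continuous_iff_continuousAt.2 fun x => (dy2_deriv τ x).continuousAt
lemma W_cont : Continuous (W τ) := continuous_iff_continuousAt.2 fun x => (W_deriv τ x).continuousAt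
lemma q_cont : Continuous (q τ) := by unfold q; fun_prop

lemma y1_per (x : ℝ) : y1 τ (x + 2 * Real.pi) = y1 τ x := by unfold y1; rw [Real.cos_add_two_pi]
lemma e_per (x : ℝ) : e τ (x + 2 * Real.pi) = e τ x := by unfold e; rw [Real.cos_add_two_pi]
lemma dy1_per (x : ℝ) : dy1 τ (x + 2 * Real.pi) = dy1 τ x := by
  unfold dy1; rw [y1_per, Real.sin_add_two_pi]
lemma q_per (x : ℝ) : q τ (x + 2 * Real.pi) = q τ x := by
  unfold q; rw [Real.cos_add_two_pi, Real.sin_add_two_pi]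

variable {τ} (hX : X (2 * τ) (Real.pi / 2) = 0)
include hX

lemma W_per (x : ℝ) : W τ (x + 2 * Real.pi) = W τ x := by
  unfold W; rw [X_per hX, Y_per]
lemma y2_per (x : ℝ) : y2 τ (x + 2 * Real.pi) = y2 τ x := by
  unfold y2; rw [y1_per, W_per hX]
lemma dy2_per (x : ℝ) : dy2 τ (x + 2 * Real.pi) = dy2 τ x := by
  unfold dy2; rw [dy1_per, W_per hX, e_per]

omit hX in
lemma y1_sq (x : ℝ) : y1 τ x ^ 2 = (Real.cos (2 * τ * Real.cos x) : ℂ) + I * (Real.sin (2 * τ * Real.cos x) : ℂ) := by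
  unfold y1
  rw [← Complex.exp_nat_mul]
  have h4 : ((2 : ℕ) : ℂ) * ((I * (τ * Real.cos x : ℝ))) = ((2 * τ * Real.cos x : ℝ) : ℂ) * I := by
    push_cast; ring
  rw [h4, Complex.exp_mul_I, ← Complex.ofReal_cos, ← Complex.ofReal_sin]
  ring

lemma int_y1_sq : ∫ x in (0 : ℝ)..(2 * Real.pi), y1 τ x * y1 τ x = 0 := by
  have h : ∀ x, HasDerivAt (fun x => (X (2 * τ) x : ℂ) + I * (Y (2 * τ) x : ℂ)) (y1 τ x * y1 τ x) x := by
    intro x
    have h1 := (X_deriv (2 * τ) x).ofReal_comp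
    have h2 := (Y_deriv (2 * τ) x).ofReal_comp
    have h3 := h1.fun_add (h2.const_mul I)
    rw [← pow_two, y1_sq]
    exact h3
  have hc := y1_cont τ
  rw [intervalIntegral.integral_eq_sub_of_hasDerivAt (fun x _ => h x)
    (Continuous.intervalIntegrable (by fun_prop) _ _)]
  simp [X_two_pi hX, Y_two_pi, X_zero, Y_zero]

lemma int_y1_y2 : ∫ x in (0 : ℝ)..(2 * Real.pi), y1 τ x * y2 τ x = 0 := by
  have hneg : ∀ x, y1 τ (-x) * y2 τ (-x) = -(y1 τ x * y2 τ x) := by
    intro x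
    have h1 : y1 τ (-x) = y1 τ x := by unfold y1; rw [Real.cos_neg]
    have h2 : W τ (-x) = - W τ x := by
      unfold W; rw [X_neg, Y_neg]; push_cast; ring
    unfold y2
    rw [h1, h2]; ring
  have hper : ∀ x, y1 τ (x + 2 * Real.pi) * y2 τ (x + 2 * Real.pi) = y1 τ x * y2 τ x := by
    intro x; rw [y1_per, y2_per hX]
  have h := intervalIntegral.integral_comp_sub_left (a := 0) (b := 2 * Real.pi)
    (fun x => y1 τ x * y2 τ x) (2 * Real.pi)
  simp only [sub_self, sub_zero] at h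
  have h2 : ∀ x, y1 τ (2 * Real.pi - x) * y2 τ (2 * Real.pi - x) = -(y1 τ x * y2 τ x) := by
    intro x
    have := hper (-x)
    rw [show -x + 2 * Real.pi = 2 * Real.pi - x by ring] at this
    rw [this, hneg]
  simp only [h2, intervalIntegral.integral_neg] at h
  have h3 : (2 : ℂ) * ∫ x in (0 : ℝ)..(2 * Real.pi), y1 τ x * y2 τ x = 0 := by
    linear_combination -h
  simpa using h3

lemma int_y2_sq_ne (hτ : 0 < 2 * τ) (hτ' : 2 * τ ≤ Real.pi) :
    ∫ x in (0 : ℝ)..(2 * Real.pi), y2 τ x * y2 τ x ≠ 0 := by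
  set j := 2 * τ with hj
  intro h0
  have hre : ∀ x, (y2 τ x * y2 τ x).re =
      (X j x ^ 2 * Real.cos (j * Real.cos x) - (Real.cos (j * Real.cos x) * Y j x ^ 2
        + X j x * (2 * Y j x * Real.sin (j * Real.cos x)))) + 4 * G j x := by
    intro x
    have h1 : y2 τ x * y2 τ x = y1 τ x ^ 2 * W τ x ^ 2 := by unfold y2; ring
    rw [h1, y1_sq, ← hj]
    unfold W G
    rw [← hj]
    simp only [pow_two, Complex.mul_re, Complex.add_re, Complex.sub_re, Complex.ofReal_re, Complex.ofReal_im,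
      Complex.I_re, Complex.I_im, Complex.mul_im, Complex.add_im, Complex.sub_im]
    ring
  have hd : ∀ x, HasDerivAt (fun x => X j x ^ 3 / 3 - X j x * Y j x ^ 2)
      (X j x ^ 2 * Real.cos (j * Real.cos x) - (Real.cos (j * Real.cos x) * Y j x ^ 2
        + X j x * (2 * Y j x * Real.sin (j * Real.cos x)))) x := by
    intro x
    have h1 := X_deriv j x
    have h2 := Y_deriv j x
    have h3 := ((h1.fun_pow 3).div_const 3).fun_sub (h1.fun_mul (h2.fun_pow 2))
    refine h3.congr_deriv ?_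
    push_cast
    ring
  have hXc := X_cont j
  have hYc := Y_cont j
  have hGc := G_cont (j := j)
  have hyc := y2_cont τ
  have h1 : (∫ x in (0 : ℝ)..(2 * Real.pi), y2 τ x * y2 τ x).re =
      ∫ x in (0 : ℝ)..(2 * Real.pi), (y2 τ x * y2 τ x).re := by
    have := intervalIntegral.intervalIntegral_re (𝕜 := ℂ) (μ := volume) (a := 0) (b := 2 * Real.pi)
      (f := fun x => y2 τ x * y2 τ x) (Continuous.intervalIntegrable (by fun_prop) _ _)
    simpa using this.symm
  rw [h0] at h1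
  simp only [hre] at h1
  rw [intervalIntegral.integral_add (Continuous.intervalIntegrable (by fun_prop) _ _)
    (Continuous.intervalIntegrable (by fun_prop) _ _),
    intervalIntegral.integral_eq_sub_of_hasDerivAt (fun x _ => hd x)
      (Continuous.intervalIntegrable (by fun_prop) _ _), intervalIntegral.integral_const_mul] at h1
  have h2 := intG_neg hX hτ hτ'
  simp [X_two_pi hX, Y_two_pi, X_zero, Y_zero] at h1
  linarith

/-- a global bound for `y1` and `y2` -/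
lemma exists_bound : ∃ C : ℝ, 0 ≤ C ∧ (∀ x, ‖y1 τ x‖ ≤ C) ∧ (∀ x, ‖y2 τ x‖ ≤ C) := by
  have h1 : ∀ x, ‖y1 τ x‖ = 1 := by
    intro x
    unfold y1
    rw [mul_comm, Complex.norm_exp_ofReal_mul_I]
  have hc : Continuous fun x => ‖y2 τ x‖ := (y2_cont τ).norm
  obtain ⟨C, hC⟩ := (isCompact_Icc (a := (0 : ℝ)) (b := 2 * Real.pi)).bddAbove_image hc.continuousOn
  have h2 : ∀ x, ‖y2 τ x‖ ≤ C := by
    intro x
    obtain ⟨y, hy, hxy⟩ := (show Function.Periodic (fun x => ‖y2 τ x‖) (2 * Real.pi) from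
      fun x => by simp only [y2_per hX]).exists_mem_Ico₀ (by positivity) x
    rw [show ‖y2 τ x‖ = ‖y2 τ y‖ from hxy]
    exact hC ⟨y, ⟨hy.1, hy.2.le⟩, rfl⟩
  exact ⟨max 1 C, by positivity, fun x => by rw [h1]; exact le_max_left _ _,
    fun x => (h2 x).trans (le_max_right _ _)⟩

end

end Pool.Agent.H807R2.HillSol
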